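import Mathlib

/-!
# Counting the forms in the top three quarters (helper7)
-/

set_option autoImplicit false

open Finset

namespace Pool.Agent.Helper86.TQ

/-- the number with binary digits `s` -/
def bnum (s : Finset ℕ) : ℕ := ∑ i ∈ s, 2 ^ i

theorem bnum_inj : Function.Injective bnum := Finset.geomSum_injective (le_refl 2)

/-- the triples -/
def Dtr (m : ℕ) : Finset (ℕ × ℕ × ℕ) :=
  (range m).biUnion fun p => (range p).biUnion fun q =>
    (Ico (p + q - m) q).image fun r => (p, q, r)

theorem mem_Dtr {m : ℕ} {t : ℕ × ℕ × ℕ} :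
    t ∈ Dtr m ↔ t.2.2 < t.2.1 ∧ t.2.1 < t.1 ∧ t.1 < m ∧ t.1 + t.2.1 ≤ t.2.2 + m := by
  obtain ⟨p, q, r⟩ := t
  simp only [Dtr, mem_biUnion, mem_range, mem_image, mem_Ico, Prod.mk.injEq]
  constructor
  · rintro ⟨p', hp, q', hq, r', hr, rfl, rfl, rfl⟩
    omega
  · rintro ⟨h1, h2, h3, h4⟩
    exact ⟨p, h3, q, h2, r, by omega, rfl, rfl, rfl⟩

theorem card_Dtr (m : ℕ) : (Dtr m).card = ∑ p ∈ range m, ∑ q ∈ range p, (q - (p + q - m)) := by
  unfold Dtr
  rw [card_biUnion]
  · refine sum_congr rfl fun p _ => ?_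
    rw [card_biUnion]
    · refine sum_congr rfl fun q _ => ?_
      rw [card_image_of_injective, Nat.card_Ico]
      intro a b hab
      simpa using hab
    · intro q _ q' _ hne
      rw [Function.onFun, disjoint_left]
      simp only [mem_image, not_exists, not_and]
      rintro t ⟨r, -, rfl⟩ r' _ h
      simp only [Prod.mk.injEq, true_and] at h
      exact hne h.1.symm
  · intro p _ p' _ hne
    rw [Function.onFun, disjoint_left]
    simp only [mem_biUnion, mem_image, not_exists, not_and]
    rintro t ⟨q, -, r, -, rfl⟩ q' _ r' _ h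
    simp only [Prod.mk.injEq] at h
    exact hne h.1.symm

theorem card_Dtr' (m : ℕ) :
    (Dtr m).card = ∑ s ∈ range m, ∑ q ∈ range (m - 1 - s), min q (s + 1) := by
  rw [card_Dtr, ← sum_range_reflect]
  refine sum_congr rfl fun s hs => sum_congr rfl fun q _ => ?_
  rw [mem_range] at hs
  omega

theorem sum_min (m : ℕ) : ∑ s ∈ range (m + 1), min (m - s) s = m ^ 2 / 4 := by
  induction m using Nat.strong_induction_on with
  | _ m ih =>
  rcases m with _ | _ | m
  · simp
  · simp [sum_range_succ]
  · rw [sum_range_succ, sum_range_succ']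
    have h1 : ∑ s ∈ range (m + 1), min (m + 1 + 1 - (s + 1)) (s + 1) =
        ∑ s ∈ range (m + 1), (1 + min (m - s) s) := by
      refine sum_congr rfl fun s hs => ?_
      rw [mem_range] at hs
      omega
    rw [h1, sum_add_distrib, ih m (by omega)]
    simp only [sum_const, card_range, smul_eq_mul, mul_one]
    have h2 : (m + 1 + 1) ^ 2 = m ^ 2 + 4 * (m + 1) := by ring
    rw [h2]
    omega

theorem card_Dtr_succ (m : ℕ) : (Dtr (m + 1)).card = (Dtr m).card + m ^ 2 / 4 := by
  rw [card_Dtr', card_Dtr', sum_range_succ]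
  have h0 : m + 1 - 1 - m = 0 := by omega
  rw [h0, range_zero, sum_empty, add_zero, ← sum_min, sum_range_succ']
  have h1 : min (m - 0) 0 = 0 := by omega
  rw [h1, add_zero, ← sum_add_distrib]
  refine sum_congr rfl fun s hs => ?_
  rw [mem_range] at hs
  have h2 : m + 1 - 1 - s = (m - 1 - s) + 1 := by omega
  rw [h2, sum_range_succ]
  congr 1
  omega

theorem card_Dtr_closed (j : ℕ) : 6 * (Dtr (2 * j + 2)).card = (j + 1) * j * (4 * j + 5) ∧
    6 * (Dtr (2 * j + 3)).card = (j + 1) * (j + 2) * (4 * j + 3) := by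
  have step : ∀ j, 6 * (Dtr (2 * j + 2)).card = (j + 1) * j * (4 * j + 5) →
      6 * (Dtr (2 * j + 3)).card = (j + 1) * (j + 2) * (4 * j + 3) := by
    intro j h
    have h1 := card_Dtr_succ (2 * j + 2)
    have h2 : (2 * j + 2) ^ 2 / 4 = (j + 1) ^ 2 := by
      have : (2 * j + 2) ^ 2 = 4 * (j + 1) ^ 2 := by ring
      rw [this]
      omega
    rw [h2] at h1
    rw [h1, mul_add, h]
    ring
  induction j with
  | zero =>
    have h0 : 6 * (Dtr (2 * 0 + 2)).card = (0 + 1) * 0 * (4 * 0 + 5) := by decide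
    exact ⟨h0, step 0 h0⟩
  | succ j ih =>
    have h1 := card_Dtr_succ (2 * j + 3)
    have h2 : (2 * j + 3) ^ 2 / 4 = (j + 1) * (j + 2) := by
      have : (2 * j + 3) ^ 2 = 4 * ((j + 1) * (j + 2)) + 1 := by ring
      rw [this]
      omega
    rw [h2] at h1
    have h3 : 6 * (Dtr (2 * (j + 1) + 2)).card = (j + 1 + 1) * (j + 1) * (4 * (j + 1) + 5) := by
      have e : 2 * (j + 1) + 2 = 2 * j + 3 + 1 := by ring
      rw [e, h1, mul_add, ih.2]
      ring
    exact ⟨h3, step _ h3⟩

/-- the digit sets -/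
def Kfam (m : ℕ) : Finset (Finset ℕ) :=
  (((range (m + 2)).image fun j => ({j} : Finset ℕ)) ∪ powersetCard 2 (range (m + 1))) ∪
    ({{m + 1, m}} ∪ (Dtr m).image fun t => {t.1, t.2.1, t.2.2})

theorem card_tri {p q r : ℕ} (h1 : r < q) (h2 : q < p) : ({p, q, r} : Finset ℕ).card = 3 := by
  rw [card_eq_three]
  exact ⟨p, q, r, by omega, by omega, by omega, rfl⟩

theorem card_Kfam (m : ℕ) : (Kfam m).card = m + 2 + (m + 1).choose 2 + 1 + (Dtr m).card := by
  unfold Kfam
  have c1 : ((range (m + 2)).image fun j => ({j} : Finset ℕ)).card = m + 2 := by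
    rw [card_image_of_injective _ singleton_injective, card_range]
  have c2 : (powersetCard 2 (range (m + 1))).card = (m + 1).choose 2 := by
    rw [card_powersetCard, card_range]
  have c4 : ((Dtr m).image fun t => ({t.1, t.2.1, t.2.2} : Finset ℕ)).card = (Dtr m).card := by
    apply card_image_of_injOn
    rintro ⟨p, q, r⟩ h ⟨p', q', r'⟩ h' heq
    rw [mem_coe, mem_Dtr] at h h'
    simp only at h h' heq
    have hp : p ∈ ({p', q', r'} : Finset ℕ) := by rw [← heq]; simp
    have hq : q ∈ ({p', q', r'} : Finset ℕ) := by rw [← heq]; simp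
    have hr : r ∈ ({p', q', r'} : Finset ℕ) := by rw [← heq]; simp
    have hp' : p' ∈ ({p, q, r} : Finset ℕ) := by rw [heq]; simp
    have hq' : q' ∈ ({p, q, r} : Finset ℕ) := by rw [heq]; simp
    have hr' : r' ∈ ({p, q, r} : Finset ℕ) := by rw [heq]; simp
    simp only [mem_insert, mem_singleton] at hp hq hr hp' hq' hr'
    simp only [Prod.mk.injEq]
    omega
  have d1 : Disjoint ((range (m + 2)).image fun j => ({j} : Finset ℕ)) (powersetCard 2 (range (m + 1))) := by
    rw [disjoint_left]
    intro s hs hs'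
    obtain ⟨j, -, rfl⟩ := mem_image.1 hs
    have := (mem_powersetCard.1 hs').2
    simp at this
  have d2 : Disjoint ({{m + 1, m}} : Finset (Finset ℕ)) ((Dtr m).image fun t => {t.1, t.2.1, t.2.2}) := by
    rw [disjoint_left]
    intro s hs hs'
    rw [mem_singleton] at hs
    obtain ⟨t, ht, h⟩ := mem_image.1 hs'
    rw [mem_Dtr] at ht
    have h3 := card_tri ht.1 ht.2.1
    rw [h, hs] at h3
    have : ({m + 1, m} : Finset ℕ).card ≤ 2 := card_le_two
    omega
  have d3 : Disjoint (((range (m + 2)).image fun j => ({j} : Finset ℕ)) ∪ powersetCard 2 (range (m + 1)))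
      (({{m + 1, m}} : Finset (Finset ℕ)) ∪ (Dtr m).image fun t => {t.1, t.2.1, t.2.2}) := by
    rw [disjoint_left]
    intro s hs hs'
    have hs2 : s.card = 1 ∨ (s.card = 2 ∧ s ⊆ range (m + 1)) := by
      rcases mem_union.1 hs with h | h
      · obtain ⟨j, -, rfl⟩ := mem_image.1 h
        left
        simp
      · right
        exact ⟨(mem_powersetCard.1 h).2, (mem_powersetCard.1 h).1⟩
    rcases mem_union.1 hs' with h | h
    · rw [mem_singleton] at h
      subst h
      have h2 : ({m + 1, m} : Finset ℕ).card = 2 := card_pair (by omega)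
      rcases hs2 with h3 | ⟨-, h3⟩
      · omega
      · have := h3 (mem_insert_self _ _)
        rw [mem_range] at this
        omega
    · obtain ⟨t, ht, rfl⟩ := mem_image.1 h
      rw [mem_Dtr] at ht
      have h3 := card_tri ht.1 ht.2.1
      omega
  rw [card_union_of_disjoint d3, card_union_of_disjoint d1, card_union_of_disjoint d2, c1, c2, c4,
    card_singleton]
  ring

theorem bnum_single (j : ℕ) : bnum {j} = 2 ^ j := by simp [bnum]

theorem bnum_pair {p q : ℕ} (h : q < p) : bnum {p, q} = 2 ^ p + 2 ^ q := by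
  unfold bnum
  rw [sum_pair (by omega)]

theorem bnum_tri {p q r : ℕ} (h1 : r < q) (h2 : q < p) : bnum {p, q, r} = 2 ^ p + 2 ^ q + 2 ^ r := by
  unfold bnum
  rw [sum_insert (by simp; omega), sum_pair (by omega)]
  ring

theorem mem_Kfam_single {m j : ℕ} (h : j ≤ m + 1) : ({j} : Finset ℕ) ∈ Kfam m := by
  unfold Kfam
  exact mem_union_left _ (mem_union_left _ (mem_image.2 ⟨j, mem_range.2 (by omega), rfl⟩))

theorem mem_Kfam_pair {m p q : ℕ} (h : q < p) (hp : p ≤ m) : ({p, q} : Finset ℕ) ∈ Kfam m := by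
  unfold Kfam
  refine mem_union_left _ (mem_union_right _ (mem_powersetCard.2 ⟨?_, card_pair (by omega)⟩))
  intro x hx
  rw [mem_insert, mem_singleton] at hx
  rw [mem_range]
  omega

theorem forms_iff (m : ℕ) (N : ℕ) :
    (N = 2 ^ m ∨ (∃ p q : ℕ, q ≤ p ∧ p ≤ m ∧ N + 1 = 2 ^ m + 2 ^ p + 2 ^ q) ∨
      ∃ p q r : ℕ, r ≤ q ∧ q ≤ p ∧ p ≤ m ∧ p + q ≤ r + m ∧ N + 1 = 2 ^ m + 2 ^ p + 2 ^ q + 2 ^ r) ↔
    ∃ s ∈ Kfam m, 2 ^ m + bnum s - 1 = N := by
  constructor
  · rintro (h | ⟨p, q, h1, h2, h3⟩ | ⟨p, q, r, h1, h2, h3, h4, h5⟩)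
    · refine ⟨{0}, mem_Kfam_single (by omega), ?_⟩
      rw [bnum_single, h]
      simp
    · rcases h1.eq_or_lt with rfl | h1
      · refine ⟨{q + 1}, mem_Kfam_single (by omega), ?_⟩
        rw [bnum_single, pow_succ]
        omega
      · refine ⟨{p, q}, mem_Kfam_pair h1 h2, ?_⟩
        rw [bnum_pair h1]
        omega
    · rcases h1.eq_or_lt with rfl | h1
      · rcases h2.eq_or_lt with rfl | h2
        · rcases h3.eq_or_lt with rfl | h3
          · refine ⟨{r + 1, r}, ?_, ?_⟩
            · unfold Kfam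
              exact mem_union_right _ (mem_union_left _ (mem_singleton_self _))
            · rw [bnum_pair (by omega), pow_succ]
              omega
          · refine ⟨{r + 1, r}, mem_Kfam_pair (by omega) (by omega), ?_⟩
            rw [bnum_pair (by omega), pow_succ]
            omega
        · rcases (Nat.succ_le_of_lt h2).eq_or_lt with rfl | h6
          · refine ⟨{r + 1 + 1}, mem_Kfam_single (by omega), ?_⟩
            rw [bnum_single, pow_succ, pow_succ]
            rw [Nat.succ_eq_add_one, pow_succ] at h5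
            omega
          · refine ⟨{p, r + 1}, mem_Kfam_pair h6 (by omega), ?_⟩
            rw [bnum_pair h6, pow_succ]
            omega
      · rcases h2.eq_or_lt with rfl | h2
        · refine ⟨{q + 1, r}, mem_Kfam_pair (by omega) (by omega), ?_⟩
          rw [bnum_pair (by omega), pow_succ]
          omega
        · refine ⟨{p, q, r}, ?_, ?_⟩
          · unfold Kfam
            refine mem_union_right _ (mem_union_right _ (mem_image.2 ⟨(p, q, r), ?_, rfl⟩))
            rw [mem_Dtr]
            simp only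
            omega
          · rw [bnum_tri h1 h2]
            omega
  · rintro ⟨s, hs, rfl⟩
    have hpos : 0 < 2 ^ m := by positivity
    unfold Kfam at hs
    rcases mem_union.1 hs with h | h
    · rcases mem_union.1 h with h | h
      · obtain ⟨j, hj, rfl⟩ := mem_image.1 h
        rw [mem_range] at hj
        rw [bnum_single]
        rcases j with _ | j
        · left
          simp
        · right
          left
          refine ⟨j, j, le_rfl, by omega, ?_⟩
          rw [pow_succ]
          omega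
      · obtain ⟨h1, h2⟩ := mem_powersetCard.1 h
        obtain ⟨x, y, hxy, rfl⟩ := card_eq_two.1 h2
        have hx := mem_range.1 (h1 (mem_insert_self x {y}))
        have hy := mem_range.1 (h1 (mem_insert_of_mem (mem_singleton_self y)))
        have hx2 : 0 < 2 ^ x := by positivity
        have hy2 : 0 < 2 ^ y := by positivity
        right
        left
        rcases Nat.lt_or_gt_of_ne hxy with h3 | h3
        · refine ⟨y, x, h3.le, by omega, ?_⟩
          rw [pair_comm, bnum_pair h3]
          omega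
        · refine ⟨x, y, h3.le, by omega, ?_⟩
          rw [bnum_pair h3]
          omega
    · rcases mem_union.1 h with h | h
      · rw [mem_singleton] at h
        subst h
        right
        right
        refine ⟨m, m, m, le_rfl, le_rfl, le_rfl, le_rfl, ?_⟩
        rw [bnum_pair (by omega), pow_succ]
        omega
      · obtain ⟨⟨p, q, r⟩, ht, rfl⟩ := mem_image.1 h
        rw [mem_Dtr] at ht
        simp only at ht
        right
        right
        refine ⟨p, q, r, by omega, by omega, by omega, by omega, ?_⟩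
        simp only
        rw [bnum_tri ht.1 ht.2.1]
        have hp2 : 0 < 2 ^ p := by positivity
        have hq2 : 0 < 2 ^ q := by positivity
        have hr2 : 0 < 2 ^ r := by positivity
        omega

theorem bnum_pos {m : ℕ} {s : Finset ℕ} (hs : s ∈ Kfam m) : 0 < bnum s := by
  have hne : s.Nonempty := by
    unfold Kfam at hs
    rcases mem_union.1 hs with h | h
    · rcases mem_union.1 h with h | h
      · obtain ⟨j, -, rfl⟩ := mem_image.1 h
        exact singleton_nonempty j
      · rw [← card_pos, (mem_powersetCard.1 h).2]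
        norm_num
    · rcases mem_union.1 h with h | h
      · rw [mem_singleton] at h
        subst h
        exact insert_nonempty _ _
      · obtain ⟨t, -, rfl⟩ := mem_image.1 h
        exact insert_nonempty _ _
  exact sum_pos (fun i _ => by positivity) hne

/-- The number of values in the top three quarters. -/
theorem count_forms {n : ℕ} (hn : 4 ≤ n) :
    {N : ℕ | N = 2 ^ (n - 2) ∨ (∃ p q : ℕ, q ≤ p ∧ p ≤ n - 2 ∧ N + 1 = 2 ^ (n - 2) + 2 ^ p + 2 ^ q) ∨
      ∃ p q r : ℕ, r ≤ q ∧ q ≤ p ∧ p ≤ n - 2 ∧ p + q ≤ r + (n - 2) ∧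
        N + 1 = 2 ^ (n - 2) + 2 ^ p + 2 ^ q + 2 ^ r}.ncard =
    2 * n - 1 + (n - 2) * (n - 3) / 2 + (n - 1) * (n - 3) * (2 * n - 7) / 24 := by
  classical
  obtain ⟨k, rfl⟩ : ∃ k, n = k + 4 := ⟨n - 4, by omega⟩
  have e : k + 4 - 2 = k + 2 := by omega
  rw [e]
  set m := k + 2 with hm
  have hset : {N : ℕ | N = 2 ^ m ∨ (∃ p q : ℕ, q ≤ p ∧ p ≤ m ∧ N + 1 = 2 ^ m + 2 ^ p + 2 ^ q) ∨
      ∃ p q r : ℕ, r ≤ q ∧ q ≤ p ∧ p ≤ m ∧ p + q ≤ r + m ∧ N + 1 = 2 ^ m + 2 ^ p + 2 ^ q + 2 ^ r} =
      (((Kfam m).image fun s => 2 ^ m + bnum s - 1 : Finset ℕ) : Set ℕ) := by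
    ext N
    rw [Set.mem_ofPred_eq, forms_iff, mem_coe, mem_image]
  rw [hset, Set.ncard_coe_finset, card_image_of_injOn, card_Kfam]
  · have h2 : (m + 1).choose 2 = (m + 1) * m / 2 := by rw [Nat.choose_two_right]; simp
    rw [h2, hm]
    have e1 : k + 4 - 3 = k + 1 := by omega
    have e2 : k + 4 - 1 = k + 3 := by omega
    have e3 : 2 * (k + 4) - 7 = 2 * k + 1 := by omega
    rw [e1, e2, e3]
    have h3 : (k + 2 + 1) * (k + 2) / 2 = (k + 2) * (k + 1) / 2 + (k + 2) := by
      have : (k + 2 + 1) * (k + 2) = (k + 2) * (k + 1) + (k + 2) * 2 := by ring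
      rw [this]
      omega
    rw [h3]
    have h4 : (Dtr (k + 2)).card = (k + 3) * (k + 1) * (2 * k + 1) / 24 := by
      rcases Nat.even_or_odd' k with ⟨j, rfl | rfl⟩
      · have h5 := (card_Dtr_closed j).1
        have h6 : (2 * j + 3) * (2 * j + 1) * (2 * (2 * j) + 1) = 4 * ((j + 1) * j * (4 * j + 5)) + 3 := by
          ring
        rw [h6, ← h5]
        omega
      · have h5 := (card_Dtr_closed j).2
        have h6 : (2 * j + 1 + 3) * (2 * j + 1 + 1) * (2 * (2 * j + 1) + 1) =
            4 * ((j + 1) * (j + 2) * (4 * j + 3)) := by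
          ring
        have e7 : 2 * j + 1 + 2 = 2 * j + 3 := by ring
        rw [h6, ← h5, e7]
        omega
    rw [h4]
    omega
  · intro s hs s' hs' h
    rw [mem_coe] at hs hs'
    have h1 := bnum_pos hs
    have h2 := bnum_pos hs'
    simp only at h
    have hpos : 0 < 2 ^ m := by positivity
    exact bnum_inj (by omega)

end Pool.Agent.Helper86.TQ
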