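import Pool.Agent.CliqueCount.Upper3

set_option autoImplicit false

/-! The converse: the values `2^(n-2) + 1`, `2^(n-2) + 2^p + 2^q` and
`2^(n-2) + 2^p + 2^q + 2^r` are numbers of cliques of graphs on `n` vertices (helper31). -/

open Finset

namespace Pool.Agent.Helper86.TQ

open Pool.Agent.CliqueCount (clq mem_clq vals tot cnt Attain attain_of attain_graph attain_single
  attain_add cnt_empty)

private lemma mem_vals_of_attain {n K y h : ℕ} (a : Attain K y h) (hn : K + y = n) :
    2 ^ K + h ∈ vals n := by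
  subst hn
  exact attain_graph a

theorem conv1 {n : ℕ} (hn : 4 ≤ n) : 2 ^ (n - 2) + 1 ∈ vals n := by
  have a := attain_add (attain_add (attain_add (attain_single (le_refl (n - 4)))
    (attain_single (le_refl (n - 4)))) (attain_single (le_refl (n - 4))))
    (attain_single (Nat.zero_le (n - 4)))
  have h := mem_vals_of_attain a (n := n) (by omega)
  have e : 2 ^ (n - 4) + (2 ^ (n - 4) + 2 ^ (n - 4) + 2 ^ (n - 4) + 2 ^ 0) = 2 ^ (n - 2) + 1 := by
    have h1 : n - 2 = (n - 4) + 2 := by omega
    rw [h1, pow_add]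
    ring
  rwa [e] at h

theorem conv2 {n p q : ℕ} (hn : 2 ≤ n) (hp : p ≤ n - 2) (hq : q ≤ n - 2) :
    2 ^ (n - 2) + 2 ^ p + 2 ^ q ∈ vals n := by
  have a := attain_add (attain_single hp) (attain_single hq)
  have h := mem_vals_of_attain a (n := n) (by omega)
  rwa [← add_assoc] at h

private lemma attain_pair {K p q r : ℕ} (hp : p ≤ K) (hrp : r ≤ p) (hrq : r ≤ q)
    (h : p + q ≤ r + K) : Attain K 2 (2 ^ p + 2 ^ q + 2 ^ r) := by
  classical
  let A : Bool → Fin K → Prop := fun y x =>
    if y = true then (x : ℕ) < p else p - r ≤ (x : ℕ) ∧ (x : ℕ) < p - r + q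
  refine attain_of (⊤ : SimpleGraph Bool) A (Fintype.card_fin K) rfl ?_
  have hcl : clq (⊤ : SimpleGraph Bool) = univ := by
    ext S
    rw [mem_clq]
    simp only [mem_univ, iff_true]
    intro x _ y _ hxy
    exact hxy
  have hu : (univ : Finset (Finset Bool)) = {∅, {true}, {false}, {false, true}} := by decide
  have hcard : ∀ P : ℕ → Prop, ∀ a b : ℕ, a ≤ b → b ≤ K → (∀ x, x < K → (P x ↔ a ≤ x ∧ x < b)) →
      (univ.filter fun x : Fin K => P x).card = b - a := by
    intro P a b hab hbK hP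
    have e1 : ((univ.filter fun x : Fin K => P x).map Fin.valEmbedding) = Ico a b := by
      ext x
      simp only [mem_map, mem_filter, mem_univ, true_and, Fin.valEmbedding_apply, mem_Ico]
      constructor
      · rintro ⟨y, hy, rfl⟩
        exact (hP _ y.2).1 hy
      · intro hx
        exact ⟨⟨x, lt_of_lt_of_le hx.2 hbK⟩, (hP x (lt_of_lt_of_le hx.2 hbK)).2 hx, rfl⟩
    rw [← card_map Fin.valEmbedding, e1, Nat.card_Ico]
  have c1 : cnt A {true} = p := by
    have h1 := hcard (fun x => x < p) 0 p (Nat.zero_le _) hp (fun x _ => by simp)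
    unfold cnt
    rw [← Nat.sub_zero p, ← h1]
    congr 1
    ext x
    simp [A]
  have c2 : cnt A {false} = q := by
    have h1 := hcard (fun x => p - r ≤ x ∧ x < p - r + q) (p - r) (p - r + q) (by omega) (by omega)
      (fun x _ => Iff.rfl)
    have h2 : p - r + q - (p - r) = q := by omega
    rw [h2] at h1
    unfold cnt
    refine Eq.trans ?_ h1
    congr 1
    ext x
    simp [A]
  have c3 : cnt A {false, true} = r := by
    have h1 := hcard (fun x => (p - r ≤ x ∧ x < p - r + q) ∧ x < p) (p - r) p (by omega) hp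
      (fun x _ => by omega)
    have h2 : p - (p - r) = r := by omega
    rw [h2] at h1
    unfold cnt
    refine Eq.trans ?_ h1
    congr 1
    ext x
    simp [A]
  unfold tot
  rw [hcl, hu, sum_insert (by decide), sum_insert (by decide), sum_insert (by decide),
    sum_singleton, c1, c2, c3, cnt_empty, Fintype.card_fin]
  ring

theorem conv3 {n p q r : ℕ} (hn : 2 ≤ n) (hp : p ≤ n - 2) (hq : q ≤ n - 2) (hrp : r ≤ p)
    (hrq : r ≤ q) (h : p + q ≤ r + (n - 2)) :
    2 ^ (n - 2) + 2 ^ p + 2 ^ q + 2 ^ r ∈ vals n := by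
  have h1 := mem_vals_of_attain (attain_pair hp hrp hrq h) (n := n) (by omega)
  have e : 2 ^ (n - 2) + (2 ^ p + 2 ^ q + 2 ^ r) = 2 ^ (n - 2) + 2 ^ p + 2 ^ q + 2 ^ r := by ring
  rwa [e] at h1

end Pool.Agent.Helper86.TQ
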