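import Pool.Agent.Helper86.TQ.Form

set_option autoImplicit false
set_option linter.unusedSectionVars false

open Finset

namespace Pool.Agent.Helper86.TQ

variable {V : Type*} [DecidableEq V] (H : SimpleGraph V)

lemma pow_bound (k : ℕ) : 3 ^ (k + 10) ≤ 4 ^ (k + 8) := by
  induction k with
  | zero => norm_num
  | succ k ih =>
    calc 3 ^ (k + 1 + 10) = 3 * 3 ^ (k + 10) := by ring
      _ ≤ 4 * 4 ^ (k + 8) := Nat.mul_le_mul (by norm_num) ih
      _ = 4 ^ (k + 1 + 8) := by ring

/-- bounded search for a form -/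
def FormB (k M : ℕ) : Prop :=
  M = 1 ∨ (∃ p < k + 1, ∃ q < k + 1, M = 2 ^ p + 2 ^ q) ∨
    ∃ p < k + 1, ∃ q < k + 1, ∃ r < k + 1, r ≤ p ∧ r ≤ q ∧ p + q ≤ r + k ∧ M = 2 ^ p + 2 ^ q + 2 ^ r

instance (k M : ℕ) : Decidable (FormB k M) := by unfold FormB; infer_instance

lemma form_of_formB {k M : ℕ} (h : FormB k M) : Form k M := by
  rcases h with h | ⟨p, hp, q, hq, h⟩ | ⟨p, hp, q, hq, r, hr, h1, h2, h3, h⟩
  · exact Or.inl h
  · exact form_two (by omega) (by omega) h
  · exact form_three (by omega) (by omega) h1 h2 h3 h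

lemma small0 : ∀ M < 3, 1 ≤ M → FormB 0 M := by decide
lemma small1 : ∀ M < 4, 1 ≤ M → FormB 1 M := by decide
lemma small2 : ∀ M < 6, 1 ≤ M → FormB 2 M := by decide
lemma small3 : ∀ M < 8, 1 ≤ M → FormB 3 M := by decide
lemma small4 : ∀ M < 12, 1 ≤ M → FormB 4 M := by decide
lemma small5 : ∀ M < 15, 1 ≤ M → FormB 5 M := by decide
lemma small6 : ∀ M < 15, 1 ≤ M → FormB 6 M := by decide
lemma small6' : FormB 6 17 := by decide
lemma small7 : ∀ M < 15, 1 ≤ M → FormB 7 M := by decide

/-- the case of degrees between 1 and 3 -/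
lemma form_num {k i : ℕ} (hbig : 2 ^ k < i)
    (h : i ^ 2 = 3 ^ (k + 2) ∨ 27 * i ^ 2 ≤ 25 * 3 ^ (k + 2)) : Form k (i - 2 ^ k) := by
  have h1 : i ^ 2 ≤ 3 ^ (k + 2) := by
    rcases h with h | h
    · exact h.le
    · omega
  have hk : k < 8 := by
    by_contra hcon
    obtain ⟨l, rfl⟩ : ∃ l, k = l + 8 := ⟨k - 8, by omega⟩
    have h2 := pow_bound l
    have h3 : (2 ^ (l + 8)) ^ 2 < i ^ 2 := Nat.pow_lt_pow_left hbig (by norm_num)
    have h4 : (2 ^ (l + 8)) ^ 2 = 4 ^ (l + 8) := by
      rw [← pow_mul, mul_comm, pow_mul]; norm_num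
    have h5 : l + 8 + 2 = l + 10 := by ring
    rw [h5] at h1
    omega
  apply form_of_formB
  have key : ∀ B : ℕ, i ^ 2 < B ^ 2 → i < B := fun B hB => lt_of_pow_lt_pow_left₀ 2 (by positivity) hB
  interval_cases k
  · exact small0 _ (by have := key 4 (by omega); omega) (by omega)
  · exact small1 _ (by have := key 6 (by omega); omega) (by omega)
  · exact small2 _ (by have := key 10 (by omega); omega) (by omega)
  · exact small3 _ (by have := key 16 (by omega); omega) (by omega)
  · exact small4 _ (by have := key 28 (by omega); omega) (by omega)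
  · exact small5 _ (by have := key 47 (by omega); omega) (by omega)
  · rcases h with h | h
    · have h2 : i = 81 := by
        have h3 : i ^ 2 = 81 ^ 2 := by rw [h]; norm_num
        exact Nat.pow_left_injective (n := 2) (by norm_num) h3
      rw [h2]
      exact small6'
    · exact small6 _ (by have := key 78 (by omega); omega) (by omega)
  · exact small7 _ (by have := key 141 (by omega); omega) (by omega)

theorem main_of
    (hgap : ∀ A : Finset V, 7 * 2 ^ A.card < 16 * ind H A → Str H A)
    (hnum : ∀ A : Finset V, (∀ a ∈ A, 1 ≤ (nb H a A).card ∧ (nb H a A).card ≤ 3) →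
      (ind H A) ^ 2 = 3 ^ A.card ∨ 27 * (ind H A) ^ 2 ≤ 25 * 3 ^ A.card) :
    ∀ (k : ℕ) (A : Finset V), A.card = k + 2 → 2 ^ k < ind H A → Form k (ind H A - 2 ^ k) := by
  intro k
  induction k with
  | zero =>
    intro A hA hbig
    have h1 := ind_le_pow H A
    rw [hA] at h1
    have h2 : ind H A = 2 ∨ ind H A = 3 ∨ ind H A = 4 := by
      norm_num at h1 hbig
      omega
    rcases h2 with h2 | h2 | h2 <;> rw [h2]
    · exact Or.inl (by norm_num)
    · exact form_two (p := 0) (q := 0) le_rfl le_rfl (by norm_num)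
    · exact form_three (p := 0) (q := 0) (r := 0) le_rfl le_rfl le_rfl le_rfl le_rfl (by norm_num)
  | succ k ih =>
    intro A hA hbig
    by_cases h0 : ∃ w ∈ A, nb H w A = ∅
    · obtain ⟨w, hw, hw2⟩ := h0
      have hwB : w ∉ A.erase w := notMem_erase _ _
      have hcard : (A.erase w).card = k + 2 := by rw [card_erase_of_mem hw, hA]; omega
      have hnn : nn H w (A.erase w) = A.erase w := by
        ext x
        rw [mem_nn]
        refine ⟨fun h => h.1, fun h => ⟨h, fun hx => ?_⟩⟩
        have : x ∈ nb H w A := (mem_nb H).2 ⟨mem_of_mem_erase h, hx⟩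
        rw [hw2] at this
        exact absurd this (notMem_empty _)
      have e1 : ind H A = 2 * ind H (A.erase w) := by
        conv_lhs => rw [← insert_erase hw]
        rw [ind_insert H hwB, hnn]
        ring
      have e2 : 2 ^ (k + 1) = 2 * 2 ^ k := by ring
      rw [e1, e2] at hbig ⊢
      have h3 := form_scale (ih (A.erase w) hcard (by omega))
      rw [Nat.mul_sub] at h3
      exact h3
    by_cases h4 : ∃ v ∈ A, 4 ≤ (nb H v A).card
    · obtain ⟨v, hv, hv4⟩ := h4
      have hvB : v ∉ A.erase v := notMem_erase _ _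
      have hcard : (A.erase v).card = k + 2 := by rw [card_erase_of_mem hv, hA]; omega
      have hnb : nb H v (A.erase v) = nb H v A := by
        ext x
        rw [mem_nb, mem_nb, mem_erase]
        constructor
        · rintro ⟨⟨_, h1⟩, h2⟩
          exact ⟨h1, h2⟩
        · rintro ⟨h1, h2⟩
          refine ⟨⟨?_, h1⟩, h2⟩
          rintro rfl
          exact H.irrefl h2
      have hd : 4 ≤ (nb H v (A.erase v)).card := by rw [hnb]; exact hv4
      have hins : insert v (A.erase v) = A := insert_erase hv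
      have hc := card_nn_add H v (A.erase v)
      have h5 : ind H A = ind H (A.erase v) + ind H (nn H v (A.erase v)) := by
        conv_lhs => rw [← hins]
        rw [ind_insert H hvB]
      have h6 : ind H (nn H v (A.erase v)) ≤ 2 ^ (k - 2) :=
        (ind_le_pow H _).trans (Nat.pow_le_pow_right (by norm_num) (by omega))
      obtain ⟨l, rfl⟩ : ∃ l, k = l + 2 := ⟨k - 2, by omega⟩
      have hstr : Str H (A.erase v) := by
        apply hgap
        rw [hcard]
        have e1 : 2 ^ (l + 2 + 2) = 16 * 2 ^ l := by ring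
        have e2 : 2 ^ (l + 2 + 1) = 8 * 2 ^ l := by ring
        have e3 : l + 2 - 2 = l := by omega
        rw [e3] at h6
        rw [e2] at hbig
        omega
      have h7 := hub H hvB hd (by
        rw [hins, hcard]
        exact hbig) hstr
      rw [hins, hcard] at h7
      exact h7
    · push Not at h0 h4
      have h8 := hnum A (fun a ha => ⟨Finset.card_pos.2 (h0 a ha),
        by have := h4 a ha; omega⟩)
      rw [hA] at h8
      exact form_num hbig h8

end Pool.Agent.Helper86.TQ
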