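import Pool.Agent.Helper86.TQ.Ind

set_option autoImplicit false
set_option linter.unusedSectionVars false

open Finset

namespace Pool.Agent.Helper86.TQ

/-- the possible excesses over `2 ^ k`, `k = n - 2` -/
def Form (k M : ℕ) : Prop :=
  M = 1 ∨ (∃ p q, p ≤ k ∧ q ≤ k ∧ M = 2 ^ p + 2 ^ q) ∨
    ∃ p q r, p ≤ k ∧ q ≤ k ∧ r ≤ p ∧ r ≤ q ∧ p + q ≤ r + k ∧ M = 2 ^ p + 2 ^ q + 2 ^ r

lemma form_two {k p q M : ℕ} (hp : p ≤ k) (hq : q ≤ k) (h : M = 2 ^ p + 2 ^ q) : Form k M :=
  Or.inr (Or.inl ⟨p, q, hp, hq, h⟩)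

lemma form_three {k p q r M : ℕ} (hp : p ≤ k) (hq : q ≤ k) (h1 : r ≤ p) (h2 : r ≤ q)
    (h3 : p + q ≤ r + k) (h : M = 2 ^ p + 2 ^ q + 2 ^ r) : Form k M :=
  Or.inr (Or.inr ⟨p, q, r, hp, hq, h1, h2, h3, h⟩)

lemma form_scale {k M : ℕ} (h : Form k M) : Form (k + 1) (2 * M) := by
  rcases h with rfl | ⟨p, q, hp, hq, rfl⟩ | ⟨p, q, r, hp, hq, h1, h2, h3, rfl⟩
  · exact form_two (p := 0) (q := 0) (by omega) (by omega) (by norm_num)
  · exact form_two (p := p + 1) (q := q + 1) (by omega) (by omega) (by ring)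
  · exact form_three (p := p + 1) (q := q + 1) (r := r + 1) (by omega) (by omega) (by omega)
      (by omega) (by omega) (by ring)

lemma form_mul {k w s : ℕ} (h1 : 1 ≤ w) (h4 : w ≤ 4) (hs : s + 1 ≤ k) : Form k (w * 2 ^ s) := by
  have h : w = 1 ∨ w = 2 ∨ w = 3 ∨ w = 4 := by omega
  rcases h with rfl | rfl | rfl | rfl
  · rcases Nat.eq_zero_or_pos s with rfl | hs0
    · left; norm_num
    · obtain ⟨s', rfl⟩ : ∃ s', s = s' + 1 := ⟨s - 1, by omega⟩
      exact form_two (p := s') (q := s') (by omega) (by omega) (by ring)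
  · exact form_two (p := s) (q := s) (by omega) (by omega) (by ring)
  · exact form_two (p := s + 1) (q := s) (by omega) (by omega) (by ring)
  · exact form_two (p := s + 1) (q := s + 1) (by omega) (by omega) (by ring)

lemma form_mul8 {k w s : ℕ} (h1 : 1 ≤ w) (h8 : w ≤ 8) (hs : s + 3 ≤ k) : Form k (w * 2 ^ s) := by
  by_cases h4 : w ≤ 4
  · exact form_mul h1 h4 (by omega)
  have h : w = 5 ∨ w = 6 ∨ w = 7 ∨ w = 8 := by omega
  rcases h with rfl | rfl | rfl | rfl
  · exact form_two (p := s + 2) (q := s) (by omega) (by omega) (by ring)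
  · exact form_two (p := s + 2) (q := s + 1) (by omega) (by omega) (by ring)
  · exact form_three (p := s + 2) (q := s + 1) (r := s) (by omega) (by omega) (by omega)
      (by omega) (by omega) (by ring)
  · exact form_two (p := s + 2) (q := s + 2) (by omega) (by omega) (by ring)

lemma form_nine {t s m : ℕ} (h1 : 1 ≤ t) (ht : t ≤ 6 ∨ t = 9) (hs : s ≤ m) :
    Form (m + 3) (2 ^ m + t * 2 ^ s) := by
  have h : t = 1 ∨ t = 2 ∨ t = 3 ∨ t = 4 ∨ t = 5 ∨ t = 6 ∨ t = 9 := by omega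
  rcases h with rfl | rfl | rfl | rfl | rfl | rfl | rfl
  · exact form_two (p := m) (q := s) (by omega) (by omega) (by ring)
  · exact form_two (p := m) (q := s + 1) (by omega) (by omega) (by ring)
  · exact form_three (p := m) (q := s + 1) (r := s) (by omega) (by omega) (by omega)
      (by omega) (by omega) (by ring)
  · exact form_two (p := m) (q := s + 2) (by omega) (by omega) (by ring)
  · exact form_three (p := m) (q := s + 2) (r := s) (by omega) (by omega) (by omega)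
      (by omega) (by omega) (by ring)
  · by_cases hm : s + 1 ≤ m
    · exact form_three (p := m) (q := s + 2) (r := s + 1) (by omega) (by omega) (by omega)
        (by omega) (by omega) (by ring)
    · obtain rfl : m = s := by omega
      exact form_three (p := m + 1) (q := m + 2) (r := m) (by omega) (by omega) (by omega)
        (by omega) (by omega) (by ring)
  · exact form_three (p := m) (q := s + 3) (r := s) (by omega) (by omega) (by omega)
      (by omega) (by omega) (by ring)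

variable {V : Type*} [DecidableEq V] (H : SimpleGraph V)

/-- the structure of `A` -/
def Str (H : SimpleGraph V) (A : Finset V) : Prop :=
  (∀ x ∈ A, ∀ y ∈ A, ¬ H.Adj x y) ∨
    (∃ c ∈ A, ∀ x ∈ A, ∀ y ∈ A, H.Adj x y → x = c ∨ y = c) ∨
    (∃ K ⊆ A, K.card = 3 ∧ ind H K = 4 ∧ ∀ x ∈ A, ∀ y ∈ A, H.Adj x y → x ∈ K ∧ y ∈ K) ∨
    (∃ K ⊆ A, K.card = 4 ∧ ind H K = 8 ∧ ∀ x ∈ A, ∀ y ∈ A, H.Adj x y → x ∈ K ∧ y ∈ K) ∨
    (∃ K ⊆ A, K.card = 4 ∧ ind H K = 9 ∧ (∀ k ∈ K, ind H (K.erase k) ≤ 6) ∧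
      ∀ x ∈ A, ∀ y ∈ A, H.Adj x y → x ∈ K ∧ y ∈ K) ∨
    (∃ K ⊆ A, K.card = 5 ∧ ind H K = 15 ∧ ∀ x ∈ A, ∀ y ∈ A, H.Adj x y → x ∈ K ∧ y ∈ K)

/-- the counts with a core `K` -/
lemma hub_core {v : V} {A K : Finset V} (hv : v ∉ A) (hK : K ⊆ A)
    (h : ∀ x ∈ A, ∀ y ∈ A, H.Adj x y → x ∈ K ∧ y ∈ K) :
    ∃ m s t a : ℕ, A.card = K.card + m ∧ s ≤ m ∧ 1 ≤ t ∧ t ≤ ind H K ∧ t ≤ 2 ^ a ∧
      a + s + (nb H v A).card = A.card ∧
      (t = ind H K ∨ ∃ k ∈ K, t ≤ ind H (K.erase k)) ∧
      ind H (insert v A) = ind H K * 2 ^ m + t * 2 ^ s := by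
  refine ⟨(A \ K).card, (nn H v A \ K).card, ind H (nn H v A ∩ K), (nn H v A ∩ K).card,
    ?_, ?_, ind_pos H _, ind_mono H inter_subset_right, ind_le_pow H _, ?_, ?_, ?_⟩
  · have := card_sdiff_add_card_eq_card hK
    omega
  · exact card_le_card (sdiff_subset_sdiff (nn_subset H v A) (Subset.refl _))
  · have h1 := card_nn_add H v A
    have h2 := card_inter_add_card_sdiff (nn H v A) K
    omega
  · by_cases hs : K ⊆ nn H v A
    · left
      rw [inter_eq_right.2 hs]
    · right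
      rw [not_subset] at hs
      obtain ⟨k, hk, hk2⟩ := hs
      refine ⟨k, hk, ind_mono H ?_⟩
      intro x hx
      rw [mem_inter] at hx
      rw [mem_erase]
      refine ⟨?_, hx.2⟩
      rintro rfl
      exact hk2 hx.1
  · rw [ind_insert H hv, ind_core H h (Subset.refl A), ind_core H h (nn_subset H v A),
      inter_eq_right.2 hK]

theorem hub {v : V} {A : Finset V} (hv : v ∉ A) (hd : 4 ≤ (nb H v A).card)
    (hbig : 2 ^ (A.card - 1) < ind H (insert v A)) (hstr : Str H A) :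
    Form (A.card - 1) (ind H (insert v A) - 2 ^ (A.card - 1)) := by
  have hc := card_nn_add H v A
  rcases hstr with h | ⟨c, hcA, h⟩ | ⟨K, hK, hK3, hi, h⟩ | ⟨K, hK, hK3, hi, h⟩ |
    ⟨K, hK, hK3, hi, h6, h⟩ | ⟨K, hK, hK3, hi, h⟩
  · -- no edges
    have e1 : ind H (insert v A) = 2 ^ A.card + 2 ^ (nn H v A).card := by
      rw [ind_insert H hv, ind_free H h, ind_free H (fun x hx y hy =>
        h x (nn_subset H v A hx) y (nn_subset H v A hy))]
    refine form_two (p := A.card - 1) (q := (nn H v A).card) le_rfl (by omega) ?_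
    rw [e1]
    have e2 : 2 ^ A.card = 2 ^ (A.card - 1) + 2 ^ (A.card - 1) := by
      rw [← two_mul, ← pow_succ']
      congr 1
      omega
    omega
  · -- a star
    obtain ⟨A', hA'⟩ : ∃ A', A' = A.erase c := ⟨_, rfl⟩
    have hAc : A = insert c A' := by rw [hA', insert_erase hcA]
    have hcA' : c ∉ A' := by rw [hA']; exact notMem_erase _ _
    have hcard : A.card = A'.card + 1 := by rw [hAc, card_insert_of_notMem hcA']
    have hfree : ∀ x ∈ A', ∀ y ∈ A', ¬ H.Adj x y := by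
      intro x hx y hy hxy
      rw [hA', mem_erase] at hx hy
      rcases h x hx.2 y hy.2 hxy with e | e
      · exact hx.1 e
      · exact hy.1 e
    have hfree' : ∀ B ⊆ A', ind H B = 2 ^ B.card := fun B hB =>
      ind_free H (fun x hx y hy => hfree x (hB hx) y (hB hy))
    have e1 : ind H A = 2 ^ A'.card + 2 ^ (nn H c A').card := by
      conv_lhs => rw [hAc]
      rw [ind_insert H hcA', hfree' _ (Subset.refl _), hfree' _ (nn_subset H c A')]
    have hp : (nn H c A').card ≤ A'.card := card_le_card (nn_subset H c A')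
    have hq : (nn H v A').card ≤ A'.card := card_le_card (nn_subset H v A')
    by_cases hvc : H.Adj v c
    · have e2 : nn H v A = nn H v A' := by
        ext x
        rw [mem_nn, mem_nn, hAc, mem_insert]
        constructor
        · rintro ⟨rfl | h1, h2⟩
          · exact absurd hvc h2
          · exact ⟨h1, h2⟩
        · rintro ⟨h1, h2⟩
          exact ⟨Or.inr h1, h2⟩
      refine form_two (p := (nn H c A').card) (q := (nn H v A').card) (by omega) (by omega) ?_
      rw [ind_insert H hv, e1, e2, hfree' _ (nn_subset H v A'), hcard, Nat.add_sub_cancel,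
        Nat.add_assoc, Nat.add_sub_cancel_left]
    · have e2 : nn H v A = insert c (nn H v A') := by
        ext x
        rw [mem_nn, mem_insert, mem_nn, hAc, mem_insert]
        constructor
        · rintro ⟨rfl | h1, h2⟩
          · exact Or.inl rfl
          · exact Or.inr ⟨h1, h2⟩
        · rintro (rfl | ⟨h1, h2⟩)
          · exact ⟨Or.inl rfl, hvc⟩
          · exact ⟨Or.inr h1, h2⟩
      have hc2 : c ∉ nn H v A' := fun hh => hcA' (nn_subset H v A' hh)
      have hr1 : nn H c (nn H v A') ⊆ nn H v A' := nn_subset H c _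
      have hr2 : nn H c (nn H v A') ⊆ nn H c A' := by
        intro x hx
        rw [mem_nn] at hx ⊢
        exact ⟨nn_subset H v A' hx.1, hx.2⟩
      have hr3 : nn H c A' ∩ nn H v A' = nn H c (nn H v A') := by
        ext x
        rw [mem_inter, mem_nn, mem_nn, mem_nn, mem_nn]
        tauto
      have hr4 := card_union_add_card_inter (nn H c A') (nn H v A')
      rw [hr3] at hr4
      have hr5 : (nn H c A' ∪ nn H v A').card ≤ A'.card :=
        card_le_card (union_subset (nn_subset H c A') (nn_subset H v A'))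
      refine form_three (p := (nn H c A').card) (q := (nn H v A').card)
        (r := (nn H c (nn H v A')).card) (by omega) (by omega) (card_le_card hr2)
        (card_le_card hr1) (by omega) ?_
      rw [ind_insert H hv, e1, e2, ind_insert H hc2, hfree' _ (nn_subset H v A'),
        hfree' _ (hr1.trans (nn_subset H v A')), hcard, Nat.add_sub_cancel,
        Nat.add_assoc (2 ^ A'.card), Nat.add_sub_cancel_left, ← Nat.add_assoc]
  · obtain ⟨m, s, t, a, c1, c2, c3, c4, c5, c6, c7, c8⟩ := hub_core H hv hK h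
    rw [hK3] at c1
    rw [hi] at c4 c8
    have e : A.card - 1 = m + 2 := by omega
    rw [e, c8]
    have e3 : 2 ^ (m + 2) = 4 * 2 ^ m := by ring
    have e4 : 4 * 2 ^ m + t * 2 ^ s - 2 ^ (m + 2) = t * 2 ^ s := by omega
    rw [e4]
    exact form_mul c3 c4 (by omega)
  · obtain ⟨m, s, t, a, c1, c2, c3, c4, c5, c6, c7, c8⟩ := hub_core H hv hK h
    rw [hK3] at c1
    rw [hi] at c4 c8
    have e : A.card - 1 = m + 3 := by omega
    rw [e, c8]
    have e3 : 2 ^ (m + 3) = 8 * 2 ^ m := by ring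
    have e4 : 8 * 2 ^ m + t * 2 ^ s - 2 ^ (m + 3) = t * 2 ^ s := by omega
    rw [e4]
    exact form_mul8 c3 c4 (by omega)
  · obtain ⟨m, s, t, a, c1, c2, c3, c4, c5, c6, c7, c8⟩ := hub_core H hv hK h
    rw [hK3] at c1
    rw [hi] at c4 c8 c7
    have e : A.card - 1 = m + 3 := by omega
    rw [e, c8]
    have e3 : 2 ^ (m + 3) = 8 * 2 ^ m := by ring
    have e4 : 9 * 2 ^ m + t * 2 ^ s - 2 ^ (m + 3) = 2 ^ m + t * 2 ^ s := by omega
    rw [e4]
    refine form_nine c3 ?_ c2
    rcases c7 with c7 | ⟨k, hk, c7⟩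
    · exact Or.inr c7
    · exact Or.inl (c7.trans (h6 k hk))
  · obtain ⟨m, s, t, a, c1, c2, c3, c4, c5, c6, c7, c8⟩ := hub_core H hv hK h
    rw [hK3] at c1
    rw [hi] at c4 c8
    have e : A.card - 1 = m + 4 := by omega
    rw [e, c8] at hbig ⊢
    obtain ⟨δ, rfl⟩ : ∃ δ, m = s + δ := ⟨m - s, by omega⟩
    have ha : a ≤ δ + 1 := by omega
    have e5 : 2 ^ (s + δ + 4) = 16 * 2 ^ δ * 2 ^ s := by ring
    have e6 : 15 * 2 ^ (s + δ) = 15 * 2 ^ δ * 2 ^ s := by ring
    rw [e5, e6] at hbig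
    rw [e5, e6]
    have hs0 : 0 < 2 ^ s := by positivity
    have h7 : 2 ^ δ < t := by
      have h8 : 16 * 2 ^ δ * 2 ^ s < (15 * 2 ^ δ + t) * 2 ^ s := by linarith
      have h9 := Nat.lt_of_mul_lt_mul_right h8
      omega
    have hδ : δ ≤ 3 := by
      by_contra hcon
      have h8 : 2 ^ 4 ≤ 2 ^ δ := Nat.pow_le_pow_right (by norm_num) (by omega)
      omega
    have h10 : t ≤ 2 ^ (δ + 1) := c5.trans (Nat.pow_le_pow_right (by norm_num) ha)
    have h11 : 2 ^ δ ≤ 2 ^ 3 := Nat.pow_le_pow_right (by norm_num) hδ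
    have h12 : 2 ^ (δ + 1) = 2 * 2 ^ δ := by ring
    obtain ⟨w, hw⟩ : ∃ w, t = 2 ^ δ + w := ⟨t - 2 ^ δ, by omega⟩
    have e7 : 15 * 2 ^ δ * 2 ^ s + t * 2 ^ s - 16 * 2 ^ δ * 2 ^ s = w * 2 ^ s := by
      have : 15 * 2 ^ δ * 2 ^ s + t * 2 ^ s = 16 * 2 ^ δ * 2 ^ s + w * 2 ^ s := by
        rw [hw]; ring
      omega
    rw [e7]
    exact form_mul8 (by omega) (by omega) (by omega)

end Pool.Agent.Helper86.TQ
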