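import Pool.Agent.Helper86.TQ.Ind

set_option autoImplicit false
set_option maxHeartbeats 4000000

/-! Sets with more than 7/16 of all subsets independent. -/

namespace Pool.Agent.Helper86.TQ

variable {V : Type*} [DecidableEq V]

/-- an edge -/
private lemma e2 (H : SimpleGraph V) {a b : V} (hab : H.Adj a b) : ind H {a, b} ≤ 3 := by
  have h := ind_star_le H (c := a) (L := {b}) (by simpa using hab.ne) (by simpa using hab)
  simpa using h

/-- a path of three points, middle point first -/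
private lemma e3 (H : SimpleGraph V) {a b x : V} (hab : H.Adj a b) (hax : H.Adj a x)
    (hbx : b ≠ x) : ind H {a, b, x} ≤ 5 := by
  have h := ind_star_le H (c := a) (L := {b, x})
    (by simp only [Finset.mem_insert, Finset.mem_singleton, not_or]; exact ⟨hab.ne, hax.ne⟩)
    (by
      intro y hy
      simp only [Finset.mem_insert, Finset.mem_singleton] at hy
      rcases hy with rfl | rfl
      · exact hab
      · exact hax)
  rw [Finset.card_pair hbx] at h
  exact h

/-- a star with three leaves -/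
private lemma e4 (H : SimpleGraph V) {a b x p : V} (hab : H.Adj a b) (hax : H.Adj a x)
    (hap : H.Adj a p) (hbx : b ≠ x) (hbp : b ≠ p) (hxp : x ≠ p) : ind H {a, b, x, p} ≤ 9 := by
  have h := ind_star_le H (c := a) (L := {b, x, p})
    (by
      simp only [Finset.mem_insert, Finset.mem_singleton, not_or]
      exact ⟨hab.ne, hax.ne, hap.ne⟩)
    (by
      intro y hy
      simp only [Finset.mem_insert, Finset.mem_singleton] at hy
      rcases hy with rfl | rfl | rfl
      · exact hab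
      · exact hax
      · exact hap)
  have hc : ({b, x, p} : Finset V).card = 3 := by
    rw [Finset.card_insert_of_notMem (by simp [hbx, hbp]), Finset.card_pair hxp]
  rw [hc] at h
  exact h

/-- a path `p - b - a - x` -/
private lemma p4 (H : SimpleGraph V) {a b x p : V} (hab : H.Adj a b) (hax : H.Adj a x)
    (hpb : H.Adj p b) (hbx : b ≠ x) (hap : a ≠ p) (hxp : x ≠ p) : ind H {p, a, b, x} ≤ 8 := by
  have h1 : p ∉ ({a, b, x} : Finset V) := by
    simp only [Finset.mem_insert, Finset.mem_singleton, not_or]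
    exact ⟨hap.symm, hpb.ne, hxp.symm⟩
  have h2 := ind_insert H h1
  have h3 : nn H p ({a, b, x} : Finset V) ⊆ {a, x} := by
    intro y hy
    rw [mem_nn] at hy
    simp only [Finset.mem_insert, Finset.mem_singleton] at hy ⊢
    rcases hy.1 with rfl | rfl | rfl
    · exact Or.inl rfl
    · exact absurd hpb hy.2
    · exact Or.inr rfl
  have h4 := ind_mono H h3
  have h5 := e2 H hax
  have h6 := e3 H hab hax hbx
  rw [h2]
  omega

/-- a triangle -/
private lemma tri (H : SimpleGraph V) {a b c : V} (hab : H.Adj a b) (hac : H.Adj a c)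
    (hbc : H.Adj b c) : ind H {a, b, c} ≤ 4 := by
  have h1 : a ∉ ({b, c} : Finset V) := by
    simp only [Finset.mem_insert, Finset.mem_singleton, not_or]
    exact ⟨hab.ne, hac.ne⟩
  have h2 := ind_insert H h1
  have h3 : nn H a ({b, c} : Finset V) ⊆ ∅ := by
    intro y hy
    rw [mem_nn] at hy
    simp only [Finset.mem_insert, Finset.mem_singleton] at hy
    rcases hy.1 with rfl | rfl
    · exact absurd hab hy.2
    · exact absurd hac hy.2
  have h4 := ind_mono H h3
  have h5 := e2 H hbc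
  rw [ind_empty] at h4
  rw [h2]
  omega

/-- the hypothesis for subsets -/
private lemma sub (H : SimpleGraph V) {A K : Finset V} (h : 7 * 2 ^ A.card < 16 * ind H A)
    (hK : K ⊆ A) : 7 * 2 ^ K.card < 16 * ind H K := by
  have h1 := ind_le_mul H hK
  have h2 : A.card = K.card + (A \ K).card := by
    rw [Finset.card_sdiff_of_subset hK]
    have := Finset.card_le_card hK
    omega
  rw [h2, pow_add] at h
  have h3 : 0 < 2 ^ (A \ K).card := by positivity
  have h4 : (7 * 2 ^ K.card) * 2 ^ (A \ K).card < (16 * ind H K) * 2 ^ (A \ K).card := by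
    calc (7 * 2 ^ K.card) * 2 ^ (A \ K).card = 7 * (2 ^ K.card * 2 ^ (A \ K).card) := by ring
      _ < 16 * ind H A := h
      _ ≤ 16 * (ind H K * 2 ^ (A \ K).card) := Nat.mul_le_mul_left _ h1
      _ = _ := by ring
  exact lt_of_mul_lt_mul_right h4 h3.le

/-- six points of which two parts have few independent sets -/
private lemma six (H : SimpleGraph V) {A K L T : Finset V} (h : 7 * 2 ^ A.card < 16 * ind H A)
    (hTA : T ⊆ A) (hK : T ⊆ K ∪ L) (hc : T.card = 6) {m n : ℕ} (h1 : ind H K ≤ m)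
    (h2 : ind H L ≤ n) (hmn : m * n ≤ 28) : False := by
  have h3 := sub H h hTA
  have h4 := ((ind_mono H hK).trans (ind_union_le H K L)).trans (Nat.mul_le_mul h1 h2)
  rw [hc] at h3
  norm_num at h3
  omega

private lemma card6 {p a b x c d : V} (h : [p, a, b, x, c, d].Nodup) :
    ({p, a, b, x, c, d} : Finset V).card = 6 := by
  have := List.toFinset_card_of_nodup h
  simpa using this

private lemma card5 {a b x c d : V} (h : [a, b, x, c, d].Nodup) :
    ({a, b, x, c, d} : Finset V).card = 5 := by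
  have := List.toFinset_card_of_nodup h
  simpa using this

private lemma card4 {a b c d : V} (h : [a, b, c, d].Nodup) :
    ({a, b, c, d} : Finset V).card = 4 := by
  have := List.toFinset_card_of_nodup h
  simpa using this

private lemma card3 {a b c : V} (h : [a, b, c].Nodup) :
    ({a, b, c} : Finset V).card = 3 := by
  have := List.toFinset_card_of_nodup h
  simpa using this

private lemma subA {A : Finset V} {p a b x c d : V} (hp : p ∈ A) (ha : a ∈ A) (hb : b ∈ A)
    (hx : x ∈ A) (hc : c ∈ A) (hd : d ∈ A) : ({p, a, b, x, c, d} : Finset V) ⊆ A := by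
  simp [Finset.insert_subset_iff, *]

/-- the five configurations with six points -/
private lemma no1 (H : SimpleGraph V) {A : Finset V} (h : 7 * 2 ^ A.card < 16 * ind H A)
    {p a b x c d : V} (hT : ({p, a, b, x, c, d} : Finset V) ⊆ A) (hn : [p, a, b, x, c, d].Nodup)
    (hpa : H.Adj p a) (hab : H.Adj a b) (hax : H.Adj a x) (hcd : H.Adj c d) : False := by
  have hn' := hn
  simp only [List.nodup_cons, List.mem_cons, List.not_mem_nil, or_false, not_or, not_false_eq_true,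
    List.nodup_nil, and_true] at hn'
  obtain ⟨⟨_, n1, n2, _, _⟩, ⟨_, _, _, _⟩, ⟨n3, _, _⟩, _⟩ := hn'
  exact six H h hT (K := {a, b, x, p}) (L := {c, d}) (by simp [Finset.insert_subset_iff])
    (card6 hn) (e4 H hab hax hpa.symm n3 (Ne.symm n1) (Ne.symm n2)) (e2 H hcd) (by norm_num)

private lemma no2 (H : SimpleGraph V) {A : Finset V} (h : 7 * 2 ^ A.card < 16 * ind H A)
    {p a b x c d : V} (hT : ({p, a, b, x, c, d} : Finset V) ⊆ A) (hn : [p, a, b, x, c, d].Nodup)
    (hpb : H.Adj p b) (hab : H.Adj a b) (hax : H.Adj a x) (hcd : H.Adj c d) : False := by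
  have hn' := hn
  simp only [List.nodup_cons, List.mem_cons, List.not_mem_nil, or_false, not_or, not_false_eq_true,
    List.nodup_nil, and_true] at hn'
  obtain ⟨⟨n1, _, n2, _, _⟩, ⟨_, _, _, _⟩, ⟨n3, _, _⟩, _⟩ := hn'
  exact six H h hT (K := {p, a, b, x}) (L := {c, d}) (by simp [Finset.insert_subset_iff])
    (card6 hn) (p4 H hab hax hpb n3 (Ne.symm n1) (Ne.symm n2)) (e2 H hcd) (by norm_num)

private lemma no3 (H : SimpleGraph V) {A : Finset V} (h : 7 * 2 ^ A.card < 16 * ind H A)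
    {p a b x c d : V} (hT : ({p, a, b, x, c, d} : Finset V) ⊆ A) (hn : [p, a, b, x, c, d].Nodup)
    (hpx : H.Adj p x) (hab : H.Adj a b) (hax : H.Adj a x) (hcd : H.Adj c d) : False := by
  have hn' := hn
  simp only [List.nodup_cons, List.mem_cons, List.not_mem_nil, or_false, not_or, not_false_eq_true,
    List.nodup_nil, and_true] at hn'
  obtain ⟨⟨n1, n2, _, _, _⟩, ⟨_, _, _, _⟩, ⟨n3, _, _⟩, _⟩ := hn'
  exact six H h hT (K := {p, a, x, b}) (L := {c, d}) (by simp [Finset.insert_subset_iff])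
    (card6 hn) (p4 H hax hab hpx (Ne.symm n3) (Ne.symm n1) (Ne.symm n2)) (e2 H hcd) (by norm_num)

private lemma no4 (H : SimpleGraph V) {A : Finset V} (h : 7 * 2 ^ A.card < 16 * ind H A)
    {p a b x c d : V} (hT : ({p, a, b, x, c, d} : Finset V) ⊆ A) (hn : [p, a, b, x, c, d].Nodup)
    (hpc : H.Adj p c) (hab : H.Adj a b) (hax : H.Adj a x) (hcd : H.Adj c d) : False := by
  have hn' := hn
  simp only [List.nodup_cons, List.mem_cons, List.not_mem_nil, or_false, not_or, not_false_eq_true,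
    List.nodup_nil, and_true] at hn'
  obtain ⟨⟨n1, n2, _, _, n4⟩, ⟨_, _, _, _⟩, ⟨n3, _, _⟩, _⟩ := hn'
  exact six H h hT (K := {a, b, x}) (L := {c, d, p}) (by simp [Finset.insert_subset_iff])
    (card6 hn) (e3 H hab hax n3) (e3 H hcd hpc.symm (Ne.symm n4)) (by norm_num)

private lemma no5 (H : SimpleGraph V) {A : Finset V} (h : 7 * 2 ^ A.card < 16 * ind H A)
    {p q a b c d : V} (hT : ({p, q, a, b, c, d} : Finset V) ⊆ A) (hn : [p, q, a, b, c, d].Nodup)
    (hpq : H.Adj p q) (hab : H.Adj a b) (hcd : H.Adj c d) : False :=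
  six H h hT (K := {a, b} ∪ {c, d}) (L := {p, q}) (by simp [Finset.insert_subset_iff])
    (card6 hn) ((ind_union_le H _ _).trans (Nat.mul_le_mul (e2 H hab) (e2 H hcd))) (e2 H hpq)
    (by norm_num)

private def Concl (H : SimpleGraph V) (A : Finset V) : Prop :=
    (∀ x ∈ A, ∀ y ∈ A, ¬ H.Adj x y) ∨
    (∃ c ∈ A, ∀ x ∈ A, ∀ y ∈ A, H.Adj x y → x = c ∨ y = c) ∨
    (∃ K ⊆ A, K.card = 3 ∧ ind H K = 4 ∧ ∀ x ∈ A, ∀ y ∈ A, H.Adj x y → x ∈ K ∧ y ∈ K) ∨
    (∃ K ⊆ A, K.card = 4 ∧ ind H K = 8 ∧ ∀ x ∈ A, ∀ y ∈ A, H.Adj x y → x ∈ K ∧ y ∈ K) ∨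
    (∃ K ⊆ A, K.card = 4 ∧ ind H K = 9 ∧ (∀ k ∈ K, ind H (K.erase k) ≤ 6) ∧
      ∀ x ∈ A, ∀ y ∈ A, H.Adj x y → x ∈ K ∧ y ∈ K) ∨
    (∃ K ⊆ A, K.card = 5 ∧ ind H K = 15 ∧ ∀ x ∈ A, ∀ y ∈ A, H.Adj x y → x ∈ K ∧ y ∈ K)

/-- case (2b): the edges `ab`, `cd`, `ax`; every edge has its first end in the five points -/
private lemma caseKey (H : SimpleGraph V) {A : Finset V} (h : 7 * 2 ^ A.card < 16 * ind H A)
    {a b c d x : V} (ha : a ∈ A) (hb : b ∈ A) (hc : c ∈ A) (hd : d ∈ A) (hx : x ∈ A)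
    (hab : H.Adj a b) (hcd : H.Adj c d) (hax : H.Adj a x) (hac : a ≠ c) (had : a ≠ d)
    (hbc : b ≠ c) (hbd : b ≠ d) (hxb : x ≠ b) (hxc : x ≠ c) (hxd : x ≠ d) {p q : V}
    (hp : p ∈ A) (hq : q ∈ A) (hpq : H.Adj p q) : p ∈ ({a, b, x, c, d} : Finset V) := by
  have nab := hab.ne
  have ncd := hcd.ne
  have nax := hax.ne
  by_contra hpK
  simp only [Finset.mem_insert, Finset.mem_singleton, not_or] at hpK
  obtain ⟨pa, pb, px, pc, pd⟩ := hpK
  have hn : [p, a, b, x, c, d].Nodup := by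
    simp [pa, pb, px, pc, pd, nab, nax, hac, had, hxb.symm, hbc, hbd, hxc, hxd, ncd]
  have hn' : [p, a, b, x, d, c].Nodup := by
    simp [pa, pb, px, pc, pd, nab, nax, hac, had, hxb.symm, hbc, hbd, hxc, hxd, ncd.symm]
  have hT := subA hp ha hb hx hc hd
  have hT' := subA hp ha hb hx hd hc
  by_cases qa : q = a
  · subst qa; exact no1 H h hT hn hpq hab hax hcd
  by_cases qb : q = b
  · subst qb; exact no2 H h hT hn hpq hab hax hcd
  by_cases qx : q = x
  · subst qx; exact no3 H h hT hn hpq hab hax hcd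
  by_cases qc : q = c
  · subst qc; exact no4 H h hT hn hpq hab hax hcd
  by_cases qd : q = d
  · subst qd; exact no4 H h hT' hn' hpq hab hax hcd.symm
  exact no5 H h (subA hp hq ha hb hc hd)
    (by simp [pa, pb, pc, pd, nab, hac, had, hbc, hbd, ncd, qa, qb, qc, qd, hpq.ne]) hpq hab hcd

private lemma caseB (H : SimpleGraph V) {A : Finset V} (h : 7 * 2 ^ A.card < 16 * ind H A)
    {a b c d x : V} (ha : a ∈ A) (hb : b ∈ A) (hc : c ∈ A) (hd : d ∈ A) (hx : x ∈ A)
    (hab : H.Adj a b) (hcd : H.Adj c d) (hax : H.Adj a x) (hac : a ≠ c) (had : a ≠ d)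
    (hbc : b ≠ c) (hbd : b ≠ d) (hxb : x ≠ b) (hxc : x ≠ c) (hxd : x ≠ d) : Concl H A := by
  have nab := hab.ne
  have ncd := hcd.ne
  have nax := hax.ne
  have hn : [a, b, x, c, d].Nodup := by
    simp [nab, nax, hac, had, hxb.symm, hbc, hbd, hxc, hxd, ncd]
  have hKA : ({a, b, x, c, d} : Finset V) ⊆ A := by
    simp [Finset.insert_subset_iff, *]
  have h1 := sub H h hKA
  have h2 : ind H {a, b, x, c, d} ≤ 5 * 3 := by
    refine (ind_mono H (B := {a, b, x} ∪ {c, d}) ?_).trans ((ind_union_le H {a, b, x} {c, d}).trans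
      (Nat.mul_le_mul (e3 H hab hax hxb.symm) (e2 H hcd)))
    simp [Finset.insert_subset_iff]
  rw [card5 hn] at h1
  refine Or.inr (Or.inr (Or.inr (Or.inr (Or.inr ⟨_, hKA, card5 hn, by omega, ?_⟩))))
  intro p hp q hq hpq
  exact ⟨caseKey H h ha hb hc hd hx hab hcd hax hac had hbc hbd hxb hxc hxd hp hq hpq,
    caseKey H h ha hb hc hd hx hab hcd hax hac had hbc hbd hxb hxc hxd hq hp hpq.symm⟩

/-- two disjoint edges with all edges among the four points -/
private lemma case4 (H : SimpleGraph V) {A : Finset V} (h : 7 * 2 ^ A.card < 16 * ind H A)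
    {a b c d : V} (ha : a ∈ A) (hb : b ∈ A) (hc : c ∈ A) (hd : d ∈ A)
    (hab : H.Adj a b) (hcd : H.Adj c d) (hac : a ≠ c) (had : a ≠ d)
    (hbc : b ≠ c) (hbd : b ≠ d)
    (hall : ∀ x ∈ A, ∀ y ∈ A, H.Adj x y → x ∈ ({a, b, c, d} : Finset V)) : Concl H A := by
  have nab := hab.ne
  have ncd := hcd.ne
  have hn : [a, b, c, d].Nodup := by
    simp [nab, hac, had, hbc, hbd, ncd]
  have hKA : ({a, b, c, d} : Finset V) ⊆ A := by
    simp [Finset.insert_subset_iff, *]
  have h1 := sub H h hKA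
  have h2 : ind H {a, b, c, d} ≤ 3 * 3 := by
    refine (ind_mono H (B := {a, b} ∪ {c, d}) ?_).trans ((ind_union_le H {a, b} {c, d}).trans
      (Nat.mul_le_mul (e2 H hab) (e2 H hcd)))
    simp [Finset.insert_subset_iff]
  rw [card4 hn] at h1
  have h3 : ind H {a, b, c, d} = 8 ∨ ind H {a, b, c, d} = 9 := by omega
  have hall' : ∀ x ∈ A, ∀ y ∈ A, H.Adj x y →
      x ∈ ({a, b, c, d} : Finset V) ∧ y ∈ ({a, b, c, d} : Finset V) :=
    fun x hx y hy hxy => ⟨hall x hx y hy hxy, hall y hy x hx hxy.symm⟩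
  rcases h3 with h3 | h3
  · exact Or.inr (Or.inr (Or.inr (Or.inl ⟨_, hKA, card4 hn, h3, hall'⟩)))
  · refine Or.inr (Or.inr (Or.inr (Or.inr (Or.inl ⟨_, hKA, card4 hn, h3, ?_, hall'⟩))))
    -- one point and one edge
    have one : ∀ u v w : V, H.Adj v w → ∀ S : Finset V, S ⊆ {u} ∪ {v, w} → ind H S ≤ 6 := by
      intro u v w hvw S hS
      have g1 := (ind_mono H hS).trans (ind_union_le H {u} {v, w})
      have g2 := ind_le_pow H {u}
      have g3 := e2 H hvw
      rw [Finset.card_singleton] at g2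
      have g4 := Nat.mul_le_mul g2 g3
      omega
    intro k hk
    simp only [Finset.mem_insert, Finset.mem_singleton] at hk
    have ers : ∀ u v w : V, ({a, b, c, d} : Finset V) ⊆ insert k ({u} ∪ {v, w}) →
        ({a, b, c, d} : Finset V).erase k ⊆ {u} ∪ {v, w} := by
      intro u v w hs
      exact Finset.subset_insert_iff.mp hs
    rcases hk with rfl | rfl | rfl | rfl
    · exact one b c d hcd _ (ers _ _ _ (by simp [Finset.insert_subset_iff]))
    · exact one a c d hcd _ (ers _ _ _ (by simp [Finset.insert_subset_iff]))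
    · exact one d a b hab _ (ers _ _ _ (by simp [Finset.insert_subset_iff]))
    · exact one c a b hab _ (ers _ _ _ (by simp [Finset.insert_subset_iff]))

/-- two disjoint edges -/
private lemma case2 (H : SimpleGraph V) {A : Finset V} (h : 7 * 2 ^ A.card < 16 * ind H A)
    {a b c d : V} (ha : a ∈ A) (hb : b ∈ A) (hc : c ∈ A) (hd : d ∈ A)
    (hab : H.Adj a b) (hcd : H.Adj c d) (hac : a ≠ c) (had : a ≠ d)
    (hbc : b ≠ c) (hbd : b ≠ d) : Concl H A := by
  by_cases hall : ∀ x ∈ A, ∀ y ∈ A, H.Adj x y → x ∈ ({a, b, c, d} : Finset V)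
  · exact case4 H h ha hb hc hd hab hcd hac had hbc hbd hall
  push Not at hall
  obtain ⟨x, hx, y, hy, hxy, hxK⟩ := hall
  simp only [Finset.mem_insert, Finset.mem_singleton, not_or] at hxK
  obtain ⟨xa, xb, xc, xd⟩ := hxK
  by_cases ya : y = a
  · subst ya
    exact caseB H h ha hb hc hd hx hab hcd hxy.symm hac had hbc hbd xb xc xd
  by_cases yb : y = b
  · subst yb
    exact caseB H h hb ha hc hd hx hab.symm hcd hxy.symm hbc hbd hac had xa xc xd
  by_cases yc : y = c
  · subst yc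
    exact caseB H h hc hd ha hb hx hcd hab hxy.symm hac.symm hbc.symm had.symm hbd.symm xd xa xb
  by_cases yd : y = d
  · subst yd
    exact caseB H h hd hc ha hb hx hcd.symm hab hxy.symm had.symm hbd.symm hac.symm hbc.symm
      xc xa xb
  exact (no5 H h (subA hx hy ha hb hc hd)
    (by simp [xa, xb, xc, xd, hab.ne, hac, had, hbc, hbd, hcd.ne, ya, yb, yc, yd, hxy.ne])
    hxy hab hcd).elim

/-- any two edges meet -/
private lemma case1 (H : SimpleGraph V) {A : Finset V} (h : 7 * 2 ^ A.card < 16 * ind H A)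
    {a b : V} (ha : a ∈ A) (hb : b ∈ A) (hab : H.Adj a b)
    (hmeet : ∀ x ∈ A, ∀ y ∈ A, ∀ z ∈ A, ∀ w ∈ A, H.Adj x y → H.Adj z w →
      x = z ∨ x = w ∨ y = z ∨ y = w) : Concl H A := by
  by_cases h1 : ∀ x ∈ A, ∀ y ∈ A, H.Adj x y → x = a ∨ y = a
  · exact Or.inr (Or.inl ⟨a, ha, h1⟩)
  by_cases h2 : ∀ x ∈ A, ∀ y ∈ A, H.Adj x y → x = b ∨ y = b
  · exact Or.inr (Or.inl ⟨b, hb, h2⟩)
  push Not at h1 h2
  obtain ⟨x, hx, y, hy, hxy, xa, ya⟩ := h1
  obtain ⟨z, hz, w, hw, hzw, zb, wb⟩ := h2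
  -- the first edge is `b c`
  obtain ⟨c, hc, hbc, hca⟩ : ∃ c ∈ A, H.Adj b c ∧ c ≠ a := by
    rcases hmeet a ha b hb x hx y hy hab hxy with e | e | e | e
    · exact absurd e.symm xa
    · exact absurd e.symm ya
    · subst e; exact ⟨y, hy, hxy, ya⟩
    · subst e; exact ⟨x, hx, hxy.symm, xa⟩
  -- the second edge is `a e`
  obtain ⟨e, he, hae, heb⟩ : ∃ e ∈ A, H.Adj a e ∧ e ≠ b := by
    rcases hmeet a ha b hb z hz w hw hab hzw with e | e | e | e
    · subst e; exact ⟨w, hw, hzw, wb⟩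
    · subst e; exact ⟨z, hz, hzw.symm, zb⟩
    · exact absurd e.symm zb
    · exact absurd e.symm wb
  have hce : c = e := by
    rcases hmeet b hb c hc a ha e he hbc hae with q | q | q | q
    · exact absurd q hab.ne'
    · exact absurd q.symm heb
    · exact absurd q hca
    · exact q
  subst hce
  have hn : [a, b, c].Nodup := by simp [hab.ne, hca.symm, hbc.ne]
  have hKA : ({a, b, c} : Finset V) ⊆ A := by
    simp [Finset.insert_subset_iff, *]
  have h1 := sub H h hKA
  have h2 := tri H hab hae hbc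
  rw [card3 hn] at h1
  have key : ∀ x ∈ A, ∀ y ∈ A, H.Adj x y → x ∈ ({a, b, c} : Finset V) := by
    intro x hx y hy hxy
    simp only [Finset.mem_insert, Finset.mem_singleton]
    by_contra hcon
    rw [not_or, not_or] at hcon
    obtain ⟨xa, xb, xc⟩ := hcon
    have m1 := hmeet x hx y hy a ha b hb hxy hab
    have m2 := hmeet x hx y hy a ha c hc hxy hae
    have m3 := hmeet x hx y hy b hb c hc hxy hbc
    simp only [xa, xb, xc, false_or] at m1 m2 m3
    rcases m1 with q | q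
    · subst q
      rcases m3 with q | q
      · exact hab.ne q
      · exact hca.symm q
    · subst q
      rcases m2 with q | q
      · exact hab.ne' q
      · exact hbc.ne q
  exact Or.inr (Or.inr (Or.inl ⟨_, hKA, card3 hn, by omega,
    fun x hx y hy hxy => ⟨key x hx y hy hxy, key y hy x hx hxy.symm⟩⟩))

theorem gap (H : SimpleGraph V) (A : Finset V) (h : 7 * 2 ^ A.card < 16 * ind H A) :
    (∀ x ∈ A, ∀ y ∈ A, ¬ H.Adj x y) ∨
    (∃ c ∈ A, ∀ x ∈ A, ∀ y ∈ A, H.Adj x y → x = c ∨ y = c) ∨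
    (∃ K ⊆ A, K.card = 3 ∧ ind H K = 4 ∧ ∀ x ∈ A, ∀ y ∈ A, H.Adj x y → x ∈ K ∧ y ∈ K) ∨
    (∃ K ⊆ A, K.card = 4 ∧ ind H K = 8 ∧ ∀ x ∈ A, ∀ y ∈ A, H.Adj x y → x ∈ K ∧ y ∈ K) ∨
    (∃ K ⊆ A, K.card = 4 ∧ ind H K = 9 ∧ (∀ k ∈ K, ind H (K.erase k) ≤ 6) ∧
      ∀ x ∈ A, ∀ y ∈ A, H.Adj x y → x ∈ K ∧ y ∈ K) ∨
    (∃ K ⊆ A, K.card = 5 ∧ ind H K = 15 ∧ ∀ x ∈ A, ∀ y ∈ A, H.Adj x y → x ∈ K ∧ y ∈ K) := by
  change Concl H A
  by_cases h0 : ∀ x ∈ A, ∀ y ∈ A, ¬ H.Adj x y
  · exact Or.inl h0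
  push Not at h0
  obtain ⟨a, ha, b, hb, hab⟩ := h0
  by_cases hmeet : ∀ x ∈ A, ∀ y ∈ A, ∀ z ∈ A, ∀ w ∈ A, H.Adj x y → H.Adj z w →
      x = z ∨ x = w ∨ y = z ∨ y = w
  · exact case1 H h ha hb hab hmeet
  push Not at hmeet
  obtain ⟨x, hx, y, hy, z, hz, w, hw, hxy, hzw, n1, n2, n3, n4⟩ := hmeet
  exact case2 H h hx hy hz hw hxy hzw n1 n2 n3 n4

end Pool.Agent.Helper86.TQ
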