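import Mathlib

set_option autoImplicit false
set_option linter.unusedSectionVars false

/-! Counting independent subsets of a set of vertices. -/

open Finset

namespace Pool.Agent.Helper86.TQ

variable {V : Type*} [DecidableEq V]

/-- `s` is independent -/
def IsInd (H : SimpleGraph V) (s : Finset V) : Prop := ∀ x ∈ s, ∀ y ∈ s, ¬ H.Adj x y

open scoped Classical in
/-- the independent subsets of `A` -/
noncomputable def inds (H : SimpleGraph V) (A : Finset V) : Finset (Finset V) :=
  A.powerset.filter (IsInd H)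

/-- the number of independent subsets of `A` -/
noncomputable def ind (H : SimpleGraph V) (A : Finset V) : ℕ := (inds H A).card

open scoped Classical in
/-- the neighbours of `v` inside `A` -/
noncomputable def nb (H : SimpleGraph V) (v : V) (A : Finset V) : Finset V :=
  A.filter fun x => H.Adj v x

open scoped Classical in
/-- the non-neighbours of `v` inside `A` -/
noncomputable def nn (H : SimpleGraph V) (v : V) (A : Finset V) : Finset V :=
  A.filter fun x => ¬ H.Adj v x

variable (H : SimpleGraph V)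

lemma mem_nb {v x : V} {A : Finset V} : x ∈ nb H v A ↔ x ∈ A ∧ H.Adj v x := by
  simp [nb]

lemma mem_nn {v x : V} {A : Finset V} : x ∈ nn H v A ↔ x ∈ A ∧ ¬ H.Adj v x := by
  simp [nn]

lemma nn_subset (v : V) (A : Finset V) : nn H v A ⊆ A := by
  intro x hx; exact ((mem_nn H).1 hx).1

lemma nb_subset (v : V) (A : Finset V) : nb H v A ⊆ A := by
  intro x hx; exact ((mem_nb H).1 hx).1

lemma card_nn_add (v : V) (A : Finset V) : (nb H v A).card + (nn H v A).card = A.card := by
  classical
  unfold nb nn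
  convert Finset.card_filter_add_card_filter_not (s := A) (fun x => H.Adj v x) using 2

lemma mem_inds {A s : Finset V} : s ∈ inds H A ↔ s ⊆ A ∧ ∀ x ∈ s, ∀ y ∈ s, ¬ H.Adj x y := by
  simp [inds, IsInd]

lemma ind_empty : ind H ∅ = 1 := by
  unfold ind
  rw [card_eq_one]
  refine ⟨∅, ?_⟩
  ext s
  rw [mem_inds, mem_singleton, subset_empty]
  constructor
  · exact fun h => h.1
  · rintro rfl
    exact ⟨rfl, by simp⟩

lemma ind_insert {v : V} {A : Finset V} (h : v ∉ A) :
    ind H (insert v A) = ind H A + ind H (nn H v A) := by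
  classical
  unfold ind
  have e : inds H (insert v A) = inds H A ∪ (inds H (nn H v A)).image (insert v) := by
    ext s
    rw [mem_union, mem_image, mem_inds, mem_inds]
    constructor
    · rintro ⟨h1, h2⟩
      by_cases hv : v ∈ s
      · right
        refine ⟨s.erase v, (mem_inds H).2 ⟨?_, fun x hx y hy => h2 x (mem_of_mem_erase hx) y
          (mem_of_mem_erase hy)⟩, insert_erase hv⟩
        intro x hx
        rw [mem_erase] at hx
        exact (mem_nn H).2 ⟨(mem_insert.1 (h1 hx.2)).resolve_left hx.1, h2 v hv x hx.2⟩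
      · left
        refine ⟨fun x hx => (mem_insert.1 (h1 hx)).resolve_left ?_, h2⟩
        rintro rfl
        exact hv hx
    · rintro (⟨h1, h2⟩ | ⟨t, ht, rfl⟩)
      · exact ⟨h1.trans (subset_insert _ _), h2⟩
      · rw [mem_inds] at ht
        obtain ⟨h1, h2⟩ := ht
        refine ⟨insert_subset_insert _ (h1.trans (nn_subset H v A)), ?_⟩
        intro x hx y hy
        rw [mem_insert] at hx hy
        rcases hx with rfl | hx <;> rcases hy with rfl | hy
        · exact H.irrefl
        · exact ((mem_nn H).1 (h1 hy)).2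
        · exact fun hxy => ((mem_nn H).1 (h1 hx)).2 hxy.symm
        · exact h2 x hx y hy
  rw [e, card_union_of_disjoint, card_image_of_injOn]
  · intro s hs t ht hst
    rw [mem_coe, mem_inds] at hs ht
    have hvs : v ∉ s := fun hv => h (nn_subset H v A (hs.1 hv))
    have hvt : v ∉ t := fun hv => h (nn_subset H v A (ht.1 hv))
    rw [← erase_insert hvs, ← erase_insert hvt, hst]
  · rw [Finset.disjoint_left]
    intro s hs ht
    rw [mem_inds] at hs
    rw [mem_image] at ht
    obtain ⟨t, _, rfl⟩ := ht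
    exact h (hs.1 (mem_insert_self _ _))

lemma ind_mono {A B : Finset V} (h : A ⊆ B) : ind H A ≤ ind H B := by
  unfold ind
  apply card_le_card
  intro s hs
  rw [mem_inds] at hs ⊢
  exact ⟨hs.1.trans h, hs.2⟩

lemma ind_pos (A : Finset V) : 1 ≤ ind H A := by
  rw [← ind_empty H]
  exact ind_mono H (empty_subset _)

lemma ind_le_pow (A : Finset V) : ind H A ≤ 2 ^ A.card := by
  unfold ind
  rw [← card_powerset]
  apply card_le_card
  intro s hs
  rw [mem_inds] at hs
  exact mem_powerset.2 hs.1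

lemma ind_free {A : Finset V} (h : ∀ x ∈ A, ∀ y ∈ A, ¬ H.Adj x y) : ind H A = 2 ^ A.card := by
  unfold ind
  rw [← card_powerset]
  congr 1
  ext s
  rw [mem_inds, mem_powerset]
  exact ⟨fun hs => hs.1, fun hs => ⟨hs, fun x hx y hy => h x (hs hx) y (hs hy)⟩⟩

lemma ind_union_le (A B : Finset V) : ind H (A ∪ B) ≤ ind H A * ind H B := by
  classical
  unfold ind
  rw [← card_product]
  apply card_le_card_of_injOn (fun s => (s ∩ A, s ∩ B))
  · intro s hs
    rw [mem_coe, mem_inds] at hs
    rw [mem_coe, mem_product, mem_inds, mem_inds]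
    exact ⟨⟨inter_subset_right, fun x hx y hy => hs.2 x (mem_inter.1 hx).1 y (mem_inter.1 hy).1⟩,
      inter_subset_right, fun x hx y hy => hs.2 x (mem_inter.1 hx).1 y (mem_inter.1 hy).1⟩
  · intro s hs t ht hst
    rw [mem_coe, mem_inds] at hs ht
    simp only [Prod.mk.injEq] at hst
    have e : ∀ u : Finset V, u ⊆ A ∪ B → u = (u ∩ A) ∪ (u ∩ B) := by
      intro u hu
      rw [← inter_union_distrib_left, inter_eq_left.2 hu]
    rw [e s hs.1, e t ht.1, hst.1, hst.2]

lemma ind_union_eq {A B : Finset V} (hd : Disjoint A B)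
    (h : ∀ x ∈ A, ∀ y ∈ B, ¬ H.Adj x y) : ind H (A ∪ B) = ind H A * ind H B := by
  classical
  apply le_antisymm (ind_union_le H A B)
  unfold ind
  rw [← card_product]
  apply card_le_card_of_injOn (fun p => p.1 ∪ p.2)
  · intro p hp
    rw [mem_coe, mem_product, mem_inds, mem_inds] at hp
    rw [mem_coe, mem_inds]
    refine ⟨union_subset_union hp.1.1 hp.2.1, ?_⟩
    intro x hx y hy
    rw [mem_union] at hx hy
    rcases hx with hx | hx <;> rcases hy with hy | hy
    · exact hp.1.2 x hx y hy
    · exact h x (hp.1.1 hx) y (hp.2.1 hy)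
    · exact fun hxy => h y (hp.1.1 hy) x (hp.2.1 hx) hxy.symm
    · exact hp.2.2 x hx y hy
  · intro p hp q hq hpq
    rw [mem_coe, mem_product, mem_inds, mem_inds] at hp hq
    simp only at hpq
    have e1 : ∀ p : Finset V × Finset V, p.1 ⊆ A → p.2 ⊆ B → (p.1 ∪ p.2) ∩ A = p.1 := by
      intro p h1 h2
      rw [union_inter_distrib_right, inter_eq_left.2 h1,
        disjoint_iff_inter_eq_empty.1 (disjoint_of_subset_left h2 hd.symm), union_empty]
    have e2 : ∀ p : Finset V × Finset V, p.1 ⊆ A → p.2 ⊆ B → (p.1 ∪ p.2) ∩ B = p.2 := by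
      intro p h1 h2
      rw [union_inter_distrib_right, inter_eq_left.2 h2,
        disjoint_iff_inter_eq_empty.1 (disjoint_of_subset_left h1 hd), empty_union]
    refine Prod.ext ?_ ?_
    · rw [← e1 p hp.1.1 hp.2.1, ← e1 q hq.1.1 hq.2.1, hpq]
    · rw [← e2 p hp.1.1 hp.2.1, ← e2 q hq.1.1 hq.2.1, hpq]

lemma ind_star_le {c : V} {L : Finset V} (hc : c ∉ L) (h : ∀ x ∈ L, H.Adj c x) :
    ind H (insert c L) ≤ 2 ^ L.card + 1 := by
  rw [ind_insert H hc]
  have h1 : nn H c L = ∅ := by
    ext x
    rw [mem_nn]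
    simp only [notMem_empty, iff_false, not_and, not_not]
    exact h x
  rw [h1, ind_empty]
  exact Nat.add_le_add_right (ind_le_pow H L) 1

lemma ind_le_mul {K A : Finset V} (h : K ⊆ A) : ind H A ≤ ind H K * 2 ^ (A \ K).card := by
  calc ind H A = ind H (K ∪ (A \ K)) := by rw [union_sdiff_of_subset h]
    _ ≤ ind H K * ind H (A \ K) := ind_union_le H _ _
    _ ≤ _ := Nat.mul_le_mul_left _ (ind_le_pow H _)

/-- all edges inside the core `K` -/
lemma ind_core {K A B : Finset V} (h : ∀ x ∈ A, ∀ y ∈ A, H.Adj x y → x ∈ K ∧ y ∈ K)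
    (hB : B ⊆ A) : ind H B = ind H (B ∩ K) * 2 ^ (B \ K).card := by
  have h1 : B = (B ∩ K) ∪ (B \ K) := by
    ext x
    simp only [mem_union, mem_inter, mem_sdiff]
    tauto
  have hd : Disjoint (B ∩ K) (B \ K) := by
    rw [Finset.disjoint_left]
    intro x hx hx2
    rw [mem_inter] at hx
    rw [mem_sdiff] at hx2
    exact hx2.2 hx.2
  have h2 : ∀ x ∈ B ∩ K, ∀ y ∈ B \ K, ¬ H.Adj x y := by
    intro x hx y hy hxy
    rw [mem_inter] at hx
    rw [mem_sdiff] at hy
    exact hy.2 (h x (hB hx.1) y (hB hy.1) hxy).2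
  have h3 : ∀ x ∈ B \ K, ∀ y ∈ B \ K, ¬ H.Adj x y := by
    intro x hx y hy hxy
    rw [mem_sdiff] at hx hy
    exact hx.2 (h x (hB hx.1) y (hB hy.1) hxy).1
  calc ind H B = ind H ((B ∩ K) ∪ (B \ K)) := by rw [← h1]
    _ = ind H (B ∩ K) * ind H (B \ K) := ind_union_eq H hd h2
    _ = _ := by rw [ind_free H h3]

end Pool.Agent.Helper86.TQ
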