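import Pool.Agent.Helper86.TQ.Ind

/-!
# Independent sets in graphs with degrees between one and three (helper7)
-/

set_option autoImplicit false

namespace Pool.Agent.Helper86.TQ

variable {V : Type*} [DecidableEq V]

omit [DecidableEq V] in
theorem mem_nbN {H : SimpleGraph V} {v x : V} {A : Finset V} : x ∈ nb H v A ↔ x ∈ A ∧ H.Adj v x := by
  unfold nb
  simp

omit [DecidableEq V] in
theorem mem_nnN {H : SimpleGraph V} {v x : V} {A : Finset V} : x ∈ nn H v A ↔ x ∈ A ∧ ¬ H.Adj v x := by
  unfold nn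
  simp

theorem ind_congrN {H H' : SimpleGraph V} {A : Finset V}
    (h : ∀ x ∈ A, ∀ y ∈ A, (H.Adj x y ↔ H'.Adj x y)) : ind H A = ind H' A := by
  unfold ind
  congr 1
  ext s
  rw [mem_inds, mem_inds]
  refine and_congr_right fun hs => ?_
  refine forall_congr' fun x => forall_congr' fun hx => forall_congr' fun y => forall_congr' fun hy => ?_
  rw [h x (hs hx) y (hs hy)]

/-- the size used in the induction -/
noncomputable def meas (H : SimpleGraph V) (A : Finset V) : ℕ := A.card + ∑ a ∈ A, (nb H a A).card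

theorem num_aux (N : ℕ) : ∀ (H : SimpleGraph V) (A : Finset V), meas H A < N →
    (∀ a ∈ A, 1 ≤ (nb H a A).card ∧ (nb H a A).card ≤ 3) →
    (ind H A) ^ 2 = 3 ^ A.card ∨ 27 * (ind H A) ^ 2 ≤ 25 * 3 ^ A.card := by
  classical
  induction N with
  | zero => intro H A hN; omega
  | succ N ih =>
  intro H A hN h
  by_cases hE : ∃ x ∈ A, ∃ y ∈ A, H.Adj x y ∧ 2 ≤ (nb H x A).card ∧ 2 ≤ (nb H y A).card
  · obtain ⟨x, hx, y, hy, hxy, hdx, hdy⟩ := hE
    have hne : x ≠ y := hxy.ne
    set H' : SimpleGraph V := H.deleteEdges {s(x, y)} with hH'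
    have hadj : ∀ a b : V, H'.Adj a b ↔ H.Adj a b ∧ ¬ ((a = x ∧ b = y) ∨ (a = y ∧ b = x)) := by
      intro a b
      rw [hH', SimpleGraph.deleteEdges_adj, Set.mem_singleton_iff, Sym2.eq_iff]
    have hnbx : nb H' x A = (nb H x A).erase y := by
      ext b
      rw [Finset.mem_erase, mem_nbN, mem_nbN, hadj]
      constructor
      · rintro ⟨h1, h2, h3⟩
        refine ⟨fun e => h3 (Or.inl ⟨rfl, e⟩), h1, h2⟩
      · rintro ⟨h1, h2, h3⟩
        refine ⟨h2, h3, ?_⟩
        rintro (⟨-, e⟩ | ⟨e, -⟩)
        · exact h1 e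
        · exact hne e
    have hnby : nb H' y A = (nb H y A).erase x := by
      ext b
      rw [Finset.mem_erase, mem_nbN, mem_nbN, hadj]
      constructor
      · rintro ⟨h1, h2, h3⟩
        refine ⟨fun e => h3 (Or.inr ⟨rfl, e⟩), h1, h2⟩
      · rintro ⟨h1, h2, h3⟩
        refine ⟨h2, h3, ?_⟩
        rintro (⟨e, -⟩ | ⟨-, e⟩)
        · exact hne e.symm
        · exact h1 e
    have hnb : ∀ a, a ≠ x → a ≠ y → nb H' a A = nb H a A := by
      intro a ha1 ha2
      ext b
      rw [mem_nbN, mem_nbN, hadj]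
      constructor
      · rintro ⟨h1, h2, h3⟩
        exact ⟨h1, h2⟩
      · rintro ⟨h1, h2⟩
        refine ⟨h1, h2, ?_⟩
        rintro (⟨e, -⟩ | ⟨e, -⟩)
        · exact ha1 e
        · exact ha2 e
    have hymem : y ∈ nb H x A := mem_nbN.2 ⟨hy, hxy⟩
    have hxmem : x ∈ nb H y A := mem_nbN.2 ⟨hx, hxy.symm⟩
    have hcx : (nb H' x A).card = (nb H x A).card - 1 := by rw [hnbx, Finset.card_erase_of_mem hymem]
    have hcy : (nb H' y A).card = (nb H y A).card - 1 := by rw [hnby, Finset.card_erase_of_mem hxmem]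
    have h3x := h x hx
    have h3y := h y hy
    have h' : ∀ a ∈ A, 1 ≤ (nb H' a A).card ∧ (nb H' a A).card ≤ 3 := by
      intro a ha
      by_cases e1 : a = x
      · subst e1
        omega
      by_cases e2 : a = y
      · subst e2
        omega
      rw [hnb a e1 e2]
      exact h a ha
    have hlt : meas H' A < meas H A := by
      unfold meas
      refine Nat.add_lt_add_left (Finset.sum_lt_sum ?_ ⟨x, hx, ?_⟩) _
      · intro a ha
        by_cases e1 : a = x
        · subst e1
          omega
        by_cases e2 : a = y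
        · subst e2
          omega
        rw [hnb a e1 e2]
      · omega
    have hih := ih H' A (by omega) h'
    have hle : (ind H' A) ^ 2 ≤ 3 ^ A.card := by
      rcases hih with e | e
      · exact e.le
      · have : 0 < 3 ^ A.card := by positivity
        nlinarith
    -- the recursion
    set W := nn H' x (A.erase x) with hW
    set B := nn H' y (W.erase y) with hB
    have hyW : y ∈ W := by
      rw [hW, mem_nnN, Finset.mem_erase, hadj]
      refine ⟨⟨hne.symm, hy⟩, ?_⟩
      rintro ⟨-, h2⟩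
      exact h2 (Or.inl ⟨rfl, rfl⟩)
    have hxW : x ∉ W := by
      rw [hW, mem_nnN, Finset.mem_erase]
      rintro ⟨⟨h1, -⟩, -⟩
      exact h1 rfl
    have r1 : ind H' A = ind H' (A.erase x) + ind H' W := by
      conv_lhs => rw [← Finset.insert_erase hx]
      exact ind_insert H' (Finset.notMem_erase x A)
    have r2 : ind H' W = ind H' (W.erase y) + ind H' B := by
      conv_lhs => rw [← Finset.insert_erase hyW]
      exact ind_insert H' (Finset.notMem_erase y W)
    have r3 : ind H A = ind H (A.erase x) + ind H (nn H x (A.erase x)) := by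
      conv_lhs => rw [← Finset.insert_erase hx]
      exact ind_insert H (Finset.notMem_erase x A)
    have r4 : nn H x (A.erase x) = W.erase y := by
      ext b
      rw [hW, Finset.mem_erase, mem_nnN, mem_nnN, hadj]
      constructor
      · rintro ⟨h1, h2⟩
        refine ⟨fun e => h2 (e ▸ hxy), h1, fun h3 => h2 h3.1⟩
      · rintro ⟨h1, h2, h3⟩
        refine ⟨h2, fun h4 => h3 ⟨h4, ?_⟩⟩
        rintro (⟨-, e⟩ | ⟨e, -⟩)
        · exact h1 e
        · exact hne e
    have off : ∀ C : Finset V, x ∉ C → ind H C = ind H' C := by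
      intro C hC
      refine ind_congrN fun a ha b hb => ?_
      rw [hadj]
      constructor
      · intro h1
        refine ⟨h1, ?_⟩
        rintro (⟨e, -⟩ | ⟨-, e⟩)
        · exact hC (e ▸ ha)
        · exact hC (e ▸ hb)
      · exact fun h1 => h1.1
    have r5 : ind H (A.erase x) = ind H' (A.erase x) := off _ (Finset.notMem_erase x A)
    have r6 : ind H (W.erase y) = ind H' (W.erase y) := off _ fun hc => hxW (Finset.mem_of_mem_erase hc)
    have r7 : ind H' A = ind H A + ind H' B := by
      rw [r1, r2, r3, r4, r5, r6]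
      ring
    -- the bound 25
    have hs1 : ind H' (insert x (nb H' x A)) ≤ 5 := by
      refine (ind_star_le H' ?_ ?_).trans ?_
      · intro hc
        exact (mem_nbN.1 hc).2.ne rfl
      · exact fun b hb => (mem_nbN.1 hb).2
      · have : (nb H' x A).card ≤ 2 := by omega
        have h2 := Nat.pow_le_pow_right (show 0 < 2 by norm_num) this
        omega
    have hs2 : ind H' (insert y (nb H' y A)) ≤ 5 := by
      refine (ind_star_le H' ?_ ?_).trans ?_
      · intro hc
        exact (mem_nbN.1 hc).2.ne rfl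
      · exact fun b hb => (mem_nbN.1 hb).2
      · have : (nb H' y A).card ≤ 2 := by omega
        have h2 := Nat.pow_le_pow_right (show 0 < 2 by norm_num) this
        omega
    have hcov : A ⊆ (insert x (nb H' x A) ∪ insert y (nb H' y A)) ∪ B := by
      intro a ha
      by_contra hc
      simp only [Finset.mem_union, Finset.mem_insert, not_or] at hc
      obtain ⟨⟨⟨c1, c2⟩, c3, c4⟩, c5⟩ := hc
      apply c5
      rw [hB, mem_nnN, Finset.mem_erase, hW, mem_nnN, Finset.mem_erase]
      refine ⟨⟨c3, ⟨c1, ha⟩, fun h1 => c2 (mem_nbN.2 ⟨ha, h1⟩)⟩, fun h1 => c4 (mem_nbN.2 ⟨ha, h1⟩)⟩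
    have h25 : ind H' A ≤ 25 * ind H' B := by
      calc ind H' A ≤ ind H' ((insert x (nb H' x A) ∪ insert y (nb H' y A)) ∪ B) := ind_mono H' hcov
        _ ≤ ind H' (insert x (nb H' x A) ∪ insert y (nb H' y A)) * ind H' B := ind_union_le H' _ _
        _ ≤ (ind H' (insert x (nb H' x A)) * ind H' (insert y (nb H' y A))) * ind H' B :=
            Nat.mul_le_mul_right _ (ind_union_le H' _ _)
        _ ≤ (5 * 5) * ind H' B := Nat.mul_le_mul_right _ (Nat.mul_le_mul hs1 hs2)
        _ = 25 * ind H' B := by norm_num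
    right
    have h24 : 25 * ind H A ≤ 24 * ind H' A := by omega
    have hsq : (25 * ind H A) ^ 2 ≤ (24 * ind H' A) ^ 2 := Nat.pow_le_pow_left h24 2
    have e1 : (25 * ind H A) ^ 2 = 625 * (ind H A) ^ 2 := by ring
    have e2 : (24 * ind H' A) ^ 2 = 576 * (ind H' A) ^ 2 := by ring
    rw [e1, e2] at hsq
    omega
  · push Not at hE
    rcases A.eq_empty_or_nonempty with rfl | ⟨u, hu⟩
    · left
      rw [ind_empty]
      simp
    -- a centre
    have hc : ∃ c ∈ A, ∀ a ∈ nb H c A, (nb H a A).card = 1 := by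
      by_cases h2 : 2 ≤ (nb H u A).card
      · refine ⟨u, hu, fun a ha => ?_⟩
        obtain ⟨ha1, ha2⟩ := mem_nbN.1 ha
        have := hE u hu a ha1 ha2 h2
        have := h a ha1
        omega
      · obtain ⟨c, hc⟩ := Finset.card_pos.1 (h u hu).1
        obtain ⟨hc1, hc2⟩ := mem_nbN.1 hc
        refine ⟨c, hc1, fun a ha => ?_⟩
        obtain ⟨ha1, ha2⟩ := mem_nbN.1 ha
        by_cases h3 : 2 ≤ (nb H c A).card
        · have := hE c hc1 a ha1 ha2 h3
          have := h a ha1
          omega
        · have h4 : (nb H c A).card = 1 := by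
            have := h c hc1
            omega
          obtain ⟨z, hz⟩ := Finset.card_eq_one.1 h4
          have e1 : a = z := by
            rw [hz, Finset.mem_singleton] at ha
            exact ha
          have e2 : u = z := by
            have : u ∈ nb H c A := mem_nbN.2 ⟨hu, hc2.symm⟩
            rw [hz, Finset.mem_singleton] at this
            exact this
          rw [e1, ← e2]
          have := h u hu
          omega
    obtain ⟨c, hcA, hc⟩ := hc
    have hleaf : ∀ a ∈ nb H c A, ∀ b ∈ A, H.Adj a b → b = c := by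
      intro a ha b hb hab
      obtain ⟨z, hz⟩ := Finset.card_eq_one.1 (hc a ha)
      obtain ⟨ha1, ha2⟩ := mem_nbN.1 ha
      have e1 : b ∈ nb H a A := mem_nbN.2 ⟨hb, hab⟩
      have e2 : c ∈ nb H a A := mem_nbN.2 ⟨hcA, ha2.symm⟩
      rw [hz, Finset.mem_singleton] at e1 e2
      rw [e1, e2]
    set L := nb H c A with hL
    have hcL : c ∉ L := fun hcc => (mem_nbN.1 hcc).2.ne rfl
    set A1 := insert c L with hA1
    set R := A \ A1 with hR
    have hLA : L ⊆ A := fun a ha => (mem_nbN.1 ha).1
    have hA1A : A1 ⊆ A := Finset.insert_subset hcA hLA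
    have hno : ∀ a ∈ A1, ∀ b ∈ R, ¬ H.Adj a b := by
      intro a ha b hb hab
      obtain ⟨hb1, hb2⟩ := Finset.mem_sdiff.1 hb
      rcases Finset.mem_insert.1 ha with rfl | ha
      · exact hb2 (Finset.mem_insert_of_mem (mem_nbN.2 ⟨hb1, hab⟩))
      · exact hb2 (by rw [hleaf a ha b hb1 hab]; exact Finset.mem_insert_self _ _)
    have hind : ind H A = ind H A1 * ind H R := by
      have e : A = A1 ∪ R := by rw [hR, Finset.union_sdiff_of_subset hA1A]
      conv_lhs => rw [e]
      exact ind_union_eq H Finset.disjoint_sdiff hno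
    have hLfree : ∀ a ∈ L, ∀ b ∈ L, ¬ H.Adj a b := by
      intro a ha b hb hab
      have := hleaf a ha b (hLA hb) hab
      exact hcL (this ▸ hb)
    have hnnL : nn H c L = ∅ := by
      rw [Finset.eq_empty_iff_forall_notMem]
      intro b hb
      obtain ⟨h1, h2⟩ := mem_nnN.1 hb
      exact h2 (mem_nbN.1 h1).2
    have hA1i : ind H A1 = 2 ^ L.card + 1 := by
      rw [hA1, ind_insert H hcL, hnnL, ind_empty, ind_free H hLfree]
    have hnbR : ∀ a ∈ R, nb H a R = nb H a A := by
      intro a ha
      obtain ⟨ha1, ha2⟩ := Finset.mem_sdiff.1 ha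
      ext b
      rw [mem_nbN, mem_nbN]
      constructor
      · rintro ⟨h1, h2⟩
        exact ⟨(Finset.mem_sdiff.1 h1).1, h2⟩
      · rintro ⟨h1, h2⟩
        refine ⟨Finset.mem_sdiff.2 ⟨h1, fun h3 => hno b h3 a ha h2.symm⟩, h2⟩
    have hcard : A.card = L.card + 1 + R.card := by
      have h1 := Finset.card_sdiff_add_card_eq_card hA1A
      have h2 : A1.card = L.card + 1 := Finset.card_insert_of_notMem hcL
      rw [← hR] at h1
      omega
    have hRlt : meas H R < meas H A := by
      unfold meas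
      have h1 : ∑ a ∈ R, (nb H a R).card ≤ ∑ a ∈ A, (nb H a A).card := by
        calc ∑ a ∈ R, (nb H a R).card = ∑ a ∈ R, (nb H a A).card :=
              Finset.sum_congr rfl fun a ha => by rw [hnbR a ha]
          _ ≤ ∑ a ∈ A, (nb H a A).card :=
              Finset.sum_le_sum_of_subset Finset.sdiff_subset
      omega
    have hih := ih H R (by omega) fun a ha => by
      rw [hnbR a ha]
      exact h a (Finset.mem_sdiff.1 ha).1
    have hd := h c hcA
    rw [← hL] at hd
    rw [hind, hA1i, hcard]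
    set d := L.card with hdd
    set X := ind H R
    set r := R.card
    clear_value d X r
    have hd3 : d = 1 ∨ d = 2 ∨ d = 3 := by omega
    rcases hd3 with rfl | rfl | rfl
    · have e1 : ((2 ^ 1 + 1) * X) ^ 2 = 9 * X ^ 2 := by ring
      have e2 : 3 ^ (1 + 1 + r) = 9 * 3 ^ r := by rw [pow_add]; norm_num
      rw [e1, e2]
      omega
    · have e1 : ((2 ^ 2 + 1) * X) ^ 2 = 25 * X ^ 2 := by ring
      have e2 : 3 ^ (2 + 1 + r) = 27 * 3 ^ r := by rw [pow_add]; norm_num
      rw [e1, e2]
      omega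
    · have e1 : ((2 ^ 3 + 1) * X) ^ 2 = 81 * X ^ 2 := by ring
      have e2 : 3 ^ (3 + 1 + r) = 81 * 3 ^ r := by rw [pow_add]; norm_num
      rw [e1, e2]
      omega

/-- The number of independent subsets of a set on which all degrees are between one and three. -/
theorem num (H : SimpleGraph V) (A : Finset V) (h : ∀ a ∈ A, 1 ≤ (nb H a A).card ∧ (nb H a A).card ≤ 3) :
    (ind H A) ^ 2 = 3 ^ A.card ∨ 27 * (ind H A) ^ 2 ≤ 25 * 3 ^ A.card :=
  num_aux (meas H A + 1) H A (Nat.lt_succ_self _) h

end Pool.Agent.Helper86.TQ
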