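import Pool.Agent.Helper86.TQ.Ded
import Pool.Agent.Helper86.TQ.Num
import Pool.Agent.Helper86.TQ.Gap
import Pool.Agent.Helper86.TQ.Conv
import Pool.Agent.CliqueSharp.Final

set_option autoImplicit false

open Finset
open Pool.Agent.CliqueCount (clq mem_clq vals)
open Pool.Agent.CliqueSharp.Final (S mem_S_iff)

namespace Pool.Agent.Helper86.TQ

lemma clq_card_eq {n : ℕ} (G : SimpleGraph (Fin n)) : (clq G).card = ind Gᶜ univ := by
  unfold ind
  congr 1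
  ext s
  rw [mem_clq, mem_inds]
  constructor
  · intro h
    refine ⟨subset_univ _, fun x hx y hy hxy => ?_⟩
    rw [SimpleGraph.compl_adj] at hxy
    exact hxy.2 (h (mem_coe.2 hx) (mem_coe.2 hy) hxy.1)
  · rintro ⟨_, h⟩ x hx y hy hxy
    by_contra hcon
    exact h x (mem_coe.1 hx) y (mem_coe.1 hy) ((SimpleGraph.compl_adj G x y).2 ⟨hxy, hcon⟩)

theorem form_of_vals {n N : ℕ} (hn : 2 ≤ n) (h : N ∈ vals n) (hN : 2 ^ (n - 2) < N) :
    Form (n - 2) (N - 2 ^ (n - 2)) := by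
  obtain ⟨G, rfl⟩ := h
  rw [clq_card_eq] at hN ⊢
  exact main_of Gᶜ (fun A hA => gap Gᶜ A hA) (fun A hA => num Gᶜ A hA) (n - 2) univ
    (by rw [card_univ, Fintype.card_fin]; omega) hN

theorem vals_of_form {n M : ℕ} (hn : 4 ≤ n) (h : Form (n - 2) M) : 2 ^ (n - 2) + M ∈ vals n := by
  rcases h with rfl | ⟨p, q, hp, hq, rfl⟩ | ⟨p, q, r, hp, hq, h1, h2, h3, rfl⟩
  · exact conv1 hn
  · rw [← Nat.add_assoc]
    exact conv2 (by omega) hp hq
  · rw [← Nat.add_assoc, ← Nat.add_assoc]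
    exact conv3 (by omega) hp hq h1 h2 h3

/-- the top three quarters of `S n` -/
theorem top_three_quarters {n : ℕ} (hn : 4 ≤ n) (N : ℕ) :
    N ∈ S n ∧ 2 ^ (n - 2) ≤ N ↔
      N = 2 ^ (n - 2) ∨
      (∃ p q : ℕ, q ≤ p ∧ p ≤ n - 2 ∧ N + 1 = 2 ^ (n - 2) + 2 ^ p + 2 ^ q) ∨
      ∃ p q r : ℕ, r ≤ q ∧ q ≤ p ∧ p ≤ n - 2 ∧ p + q ≤ r + (n - 2) ∧
        N + 1 = 2 ^ (n - 2) + 2 ^ p + 2 ^ q + 2 ^ r := by
  constructor
  · rintro ⟨h1, h2⟩
    have h3 := form_of_vals (by omega) (mem_S_iff.1 h1) (by omega)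
    rcases h3 with h | ⟨p, q, hp, hq, h⟩ | ⟨p, q, r, hp, hq, h4, h5, h6, h⟩
    · left; omega
    · right; left
      rcases le_total q p with hqp | hqp
      · exact ⟨p, q, hqp, hp, by omega⟩
      · exact ⟨q, p, hqp, hq, by omega⟩
    · right; right
      rcases le_total q p with hqp | hqp
      · exact ⟨p, q, r, h5, hqp, hp, h6, by omega⟩
      · exact ⟨q, p, r, h4, hqp, hq, by omega, by omega⟩
  · rintro (rfl | ⟨p, q, hqp, hp, h⟩ | ⟨p, q, r, hrq, hqp, hp, h6, h⟩)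
    · exact ⟨mem_S_iff.2 (vals_of_form hn (Or.inl rfl)), le_rfl⟩
    · have e : 1 ≤ 2 ^ p := Nat.one_le_two_pow
      have e2 : 1 ≤ 2 ^ q := Nat.one_le_two_pow
      refine ⟨mem_S_iff.2 ?_, by omega⟩
      have h4 := vals_of_form hn (form_two (k := n - 2) (p := p) (q := q) hp (hqp.trans hp) rfl)
      rw [h, Nat.add_assoc]
      exact h4
    · have e : 1 ≤ 2 ^ p := Nat.one_le_two_pow
      have e2 : 1 ≤ 2 ^ q := Nat.one_le_two_pow
      have e3 : 1 ≤ 2 ^ r := Nat.one_le_two_pow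
      refine ⟨mem_S_iff.2 ?_, by omega⟩
      have h4 := vals_of_form hn (form_three (k := n - 2) (p := p) (q := q) (r := r) hp
        (hqp.trans hp) (hrq.trans hqp) hrq h6 rfl)
      rw [h, Nat.add_assoc, Nat.add_assoc, ← Nat.add_assoc (2 ^ p)]
      exact h4

end Pool.Agent.Helper86.TQ
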